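import Mathlib
import Pool.Agent.LR2.Defs
import Pool.Agent.LR4.Acct

/-!
# LR5 : the lonely runner statement with speeds at most `2 n`, for all `n ≥ 3 * 10 ^ 30`

Definitions. `V` is a counterexample (`Cex n V`), `W` its complement in `[1, 2 n]` (the missing
speeds). `M` is an odd number a little larger than `2 n`, all prime factors of which are
at least `10 ^ 9`. Everything happens in the classes modulo `1680 = 16 * 105`.
-/

namespace Pool.Agent.LR5

open Finset Pool.Agent.LR2 Pool.Agent.LR4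

/-- The situation: `V` is a counterexample, `M` is a rough number a little larger than `2 n`. -/
structure Hyp (n M : ℕ) (V : Finset ℕ) : Prop where
  cex : Cex n V
  big : 10 ^ 30 ≤ n
  lt : 2 * n + 3 ≤ M
  close : 10 ^ 9 * (M - 2 * n) ≤ 3 * n
  odd : Odd M
  rough : ∀ p : ℕ, p.Prime → p ∣ M → 10 ^ 9 ≤ p
  units : 10 ^ 9 * ((range M).filter (fun x => ¬ Nat.Coprime x M)).card ≤ 4 * M

/-- `x` has few prime factors larger than `7`. -/
def Nice (x : ℕ) : Prop := rsum 7 x ≤ 9 / 50

noncomputable instance : DecidablePred Nice := fun _ => Classical.dec _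

/-- Number of terms of the standard window (length `n / 10` with step `1680`). -/
def Ln (n : ℕ) : ℕ := n / 16800

/-- The indices `j ≤ n / 16800` for which `M - 1680 j` is not a missing speed. -/
def Bad (n M : ℕ) (V : Finset ℕ) : Finset ℕ :=
  (Icc 1 (Ln n)).filter (fun j => ¬ (M ≤ 2 * n + 1680 * j ∧ M - 1680 * j ∉ V))

/-- The lost labels (non-units included). -/
def Lost (M : ℕ) (V : Finset ℕ) : Finset ℕ :=
  (Icc 1 ((M - 1) / 2)).filter (fun X => (2 * X ∈ V ∧ M - 2 * X ∈ V) ∧ ¬ (X ∉ V ∧ M - X ∉ V))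

/-- The class of `c` modulo `1680` contains a nice missing speed in `[n / 20, U n / 100]`. -/
def Occ (n : ℕ) (V : Finset ℕ) (U : ℕ) (c : ℤ) : Prop :=
  ∃ X : ℕ, X ∉ V ∧ Nice X ∧ (X : ℤ) ≡ c [ZMOD 1680] ∧ n ≤ 20 * X ∧ 100 * X ≤ U * n

/-- No prime at most `7` divides both `c` and `e`. -/
def CopC (c e : ℤ) : Prop := ∀ p : ℕ, p.Prime → p ≤ 7 → (p : ℤ) ∣ c → ¬ (p : ℤ) ∣ e

end Pool.Agent.LR5
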