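import Mathlib
import Pool.Agent.LR4.Edges
import Pool.Agent.LR5.Defs

/-!
# LR5 / ApS : the special arithmetic progression lemma (helper97)
-/

namespace Pool.Agent.LR5

open Finset Pool.Agent.LR2 Pool.Agent.LR4

/-- The labels used by the special arithmetic progression lemma. -/
def apT : Finset ℕ := {1, 2, 3, 4, 5, 6, 7, 8, 9, 10, 12, 14, 16, 18, 20}

/-- If none of the fifteen labels `210 j t` is lost then `M - 1680 j` is missing. -/
theorem apS {n M : ℕ} {V : Finset ℕ} (h : Cex n V) {j : ℕ} (hM : 2 * n < M)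
    (hj : M ≤ 2 * n + 210 * j) (hjn : 16800 * j ≤ n) (h210 : Nat.Coprime M 210)
    (hc : Nat.Coprime j M)
    (hlab : ∀ t ∈ apT, 2 * (210 * j * t) ∈ V → M - 2 * (210 * j * t) ∈ V →
      210 * j * t ∉ V ∧ M - 210 * j * t ∉ V) : M - 1680 * j ∉ V := by
  sorry

end Pool.Agent.LR5
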