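import Mathlib
import Pool.Agent.LR5.Defs
import Pool.Agent.LR5.ApS

/-!
# LR5 / BadC : few indices are bad, few labels are lost
-/

namespace Pool.Agent.LR5

open Finset Pool.Agent.LR2 Pool.Agent.LR4

/-- The number of lost units is at most `5.5 * 10 ^ (-9) n`.
Proof: `acct` gives `2 (labL + 1) + φ(M) + 1 ≤ M + 2 evs`, `evs ≤ (K - 3) / 2` (even numbers),
`M - φ(M)` is the number of `x < M` not coprime to `M` (`H.units`), `K ≤ 3 * 10 ^ (-9) n`. -/
theorem labL_card {n M : ℕ} {V : Finset ℕ} (H : Hyp n M V) :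
    10 ^ 10 * (labL M V).card ≤ 56 * n := by
  sorry

/-- Proof: `Lost ⊆ labL ∪ {X < M not coprime to M}`, `10^9 Lost ≤ 5.6 n + 4 M ≤ 13.7 n`. -/
theorem lost_card {n M : ℕ} {V : Finset ℕ} (H : Hyp n M V) :
    4000 * (Lost M V).card ≤ Ln n := by
  sorry

/-- Proof: by `LR5.apS` (file `ApS`) a bad `j ≤ Ln n` satisfies `210 j < K = M - 2 n`, or is
not coprime to `M`, or `210 j t` is a lost label (`labL`) for one of the 15 values
`t ∈ {1, .., 10, 12, 14, 16, 18, 20}`. So `#Bad ≤ K / 210 + 4 * 10 ^ (-9) M + 15 #labL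
≤ 9.1 * 10 ^ (-8) n`. -/
theorem bad_card {n M : ℕ} {V : Finset ℕ} (H : Hyp n M V) :
    590 * (Bad n M V).card ≤ Ln n := by
  sorry

end Pool.Agent.LR5
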