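import Mathlib
import Pool.Agent.LR5.Defs

/-!
# LR5 / Err : the error terms are negligible
-/

namespace Pool.Agent.LR5

open Finset Pool.Agent.LR2 Pool.Agent.LR4

/-- All the logarithmic error terms together are at most `L / 10 ^ 7`.
Proof: `log x ≤ 4 x ^ (1/4)` or `Real.log_le_sub_one_of_pos` applied to a root, `n ≥ 10 ^ 30`. -/
theorem err_bd {n : ℕ} (hn : 10 ^ 30 ≤ n) :
    (50 / 9 : ℝ) * (1 + Real.log ((4 * n : ℕ) : ℝ)) + Nat.log 2 (4 * n) + 10 ≤
      (Ln n : ℝ) / 10 ^ 7 := by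
  sorry

/-- The sum of `1 / p ^ 2` over any finite set of primes larger than `7` is less than `.0324`
(true value `.030728`): primes up to `1000` give `.030602`, the rest at most `1 / 1000`
(compare `LR2.Good`: `GOOD_sq`). -/
theorem sq_sum (A : Finset ℕ) (hA : ∀ p ∈ A, p.Prime ∧ 7 < p) :
    ∑ p ∈ A, (1 : ℝ) / ((p : ℝ) * p) ≤ (9 / 50) ^ 2 := by
  sorry

end Pool.Agent.LR5
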