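import Mathlib
import Pool.Agent.LR5.Err

/-!
# LR5 / Cnt : counting along arithmetic progressions

The sequences are given as functions `f : ℕ → ℕ` whose values on `[1, m]` are `a + s j` with
integers `a`, `s`, where `s` is divisible by no prime larger than `7` (`s = ± 1680`, `± 3360`).
For a prime `p > 7` the number of `j ∈ [1, m]` with `p ∣ a + s j` is at most `m / p + 1`
(two such `j` differ by a multiple of `p`; `LR2.CLS_congr` or a direct argument).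
-/

namespace Pool.Agent.LR5

open Finset Pool.Agent.LR2 Pool.Agent.LR4

/-- Few terms are not nice.
Proof: `(9/50) #{..} ≤ ∑_j rsum 7 (f j) ≤ ∑_{7 < p ≤ 4 n} (1/p) (m/p + 1)
≤ (9/50)^2 m + 1 + log (4 n)` (`sq_sum`, harmonic sum as in `LR2.Good`), then `err_bd`. -/
theorem nn_count {n : ℕ} (hn : 10 ^ 30 ≤ n) (s a : ℤ)
    (hs : ∀ p : ℕ, p.Prime → 7 < p → ¬ (p : ℤ) ∣ s) (m : ℕ) (f : ℕ → ℕ)
    (hf : ∀ j, 1 ≤ j → j ≤ m → (f j : ℤ) = a + s * j)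
    (hpos : ∀ j, 1 ≤ j → j ≤ m → 1 ≤ f j ∧ f j ≤ 4 * n) :
    (((Icc 1 m).filter (fun j => ¬ Nice (f j))).card : ℝ) ≤ 9 / 50 * m + (Ln n : ℝ) / 10 ^ 6 := by
  sorry

/-- Few terms are not coprime to `X`.
Proof: a common prime factor `p` of `X` and `g j` is larger than `7`, so it is one of the primes
in `rsum 7 X`; at most `m / p + 1` terms for each, and `X` has at most `log2 X` prime factors. -/
theorem gcd_count {n : ℕ} (hn : 10 ^ 30 ≤ n) (s a : ℤ)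
    (hs : ∀ p : ℕ, p.Prime → 7 < p → ¬ (p : ℤ) ∣ s) (m X : ℕ) (hX : 1 ≤ X) (hX4 : X ≤ 4 * n)
    (g : ℕ → ℕ) (hg : ∀ j, 1 ≤ j → j ≤ m → (g j : ℤ) = a + s * j)
    (h7 : ∀ p : ℕ, p.Prime → p ≤ 7 → p ∣ X → ∀ j, 1 ≤ j → j ≤ m → ¬ p ∣ g j) :
    (((Icc 1 m).filter (fun j => ¬ Nat.Coprime X (g j))).card : ℝ) ≤
      rsum 7 X * m + (Ln n : ℝ) / 10 ^ 6 := by
  sorry

/-- The steps used below. -/
theorem step_1680 (p : ℕ) (hp : p.Prime) (h7 : 7 < p) : ¬ (p : ℤ) ∣ 1680 := by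
  sorry

theorem step_neg_1680 (p : ℕ) (hp : p.Prime) (h7 : 7 < p) : ¬ (p : ℤ) ∣ -1680 := by
  sorry

theorem step_3360 (p : ℕ) (hp : p.Prime) (h7 : 7 < p) : ¬ (p : ℤ) ∣ -3360 := by
  sorry

end Pool.Agent.LR5
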