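import Mathlib
import Pool.Agent.LR5.Defs

/-!
# LR5 / T0 : the triple `{X, M - y - X, M - y}` and the labels
-/

namespace Pool.Agent.LR5

open Finset Pool.Agent.LR2 Pool.Agent.LR4

/-- If `X` and `M - y` are missing then `M - y - X` is a speed, for small `y ≤ X`.
Proof: put `Z = M - y - X ≥ 1`, `X + Z = M - y ∈ (n, 2 n]`, `gcd (X, Z) = 1`; apply
`LR4.Cex.tri` to `(min X Z, max X Z)` (`X = Z` would give `X = 1 ∈ V`). If `X < Z ≤ n`: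
`X + 2 Z = (M - y) + Z > 2 n` since `Z > X ≥ y`; if `X < Z`, `Z > n`: `2 X + Z = (M - y) + X > 2 n`.
If `Z < X ≤ n`: `Z + 2 X = (M - y) + X > 2 n`; if `Z < X`, `X > n`:
`2 Z + X = 2 (M - y) - X > 2 n` by `X + 2 y ≤ 2 n`. -/
theorem T0 {n M : ℕ} {V : Finset ℕ} (h : Cex n V) {X y : ℕ} (hM : 2 * n < M)
    (hy : M ≤ 2 * n + y) (hyX : y ≤ X) (hyn : 4 * y ≤ n) (hX : X ≤ n ∨ X + 2 * y ≤ 2 * n)
    (hc : Nat.Coprime X (M - y)) (h1 : X ∉ V) (h2 : M - y ∉ V) : M - y - X ∈ V := by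
  sorry

/-- The label of `X` outside `Lost`. -/
theorem label {M : ℕ} {V : Finset ℕ} {X : ℕ} (hX : X ∉ Lost M V) (h0 : 1 ≤ X)
    (h1 : 2 * X < M) (h2 : 2 * X ∈ V) (h3 : M - 2 * X ∈ V) : X ∉ V ∧ M - X ∉ V := by
  sorry

/-- A multiple `1680 j` is coprime to no small prime factor of `M`: a prime `p ≤ 7` does not
divide both `X` and `M - 1680 j`. -/
theorem small_prime {n M : ℕ} {V : Finset ℕ} (H : Hyp n M V) {p : ℕ} (hp : p.Prime) (h7 : p ≤ 7)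
    {j : ℕ} (hj : 1680 * j ≤ M) : ¬ p ∣ M - 1680 * j := by
  sorry

end Pool.Agent.LR5
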