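import Mathlib
import Pool.Agent.LR5.Cnt
import Pool.Agent.LR5.T0
import Pool.Agent.LR5.BadC

/-!
# LR5 / BB : few `x` in a class have `x` and `M - x` both missing
-/

namespace Pool.Agent.LR5

open Finset Pool.Agent.LR2 Pool.Agent.LR4

/-- Few `BB` pairs.
Proof: let `S` be the set. If no `x0 + 1680 i`, `i ∈ S`, is nice, then `#S ≤ 9/50 m + error` by
`nn_count`. Otherwise let `i0` be the least `i ∈ S` with `X = x0 + 1680 i0` nice. For `i ∈ S`,
`i < i0` the term is not nice: at most `9/50 (i0 - 1) + error` such `i` (`nn_count` with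
`m := i0 - 1`). For `i ∈ S`, `i > i0` put `y = 1680 (i - i0)`: either `i - i0 ∈ Bad` or
`gcd (X, M - y) > 1`: at most `9/50 (m - i0) + error` such `i` (`gcd_count` with `m := m - i0`,
`g j = M - 1680 j`, `small_prime`), for otherwise `T0` gives `M - y - X ∈ V`, but
`M - y - X = M - (x0 + 1680 i)` is missing. Total `9/50 m + #Bad + 2 errors + 1`. -/
theorem bb_count {n M : ℕ} {V : Finset ℕ} (H : Hyp n M V) (x0 m : ℕ) (hm : m ≤ Ln n)
    (h1 : 1680 * m ≤ x0) (h2 : x0 + 1680 * m ≤ n) :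
    (((Icc 1 m).filter (fun i => x0 + 1680 * i ∉ V ∧ M - (x0 + 1680 * i) ∉ V)).card : ℝ) ≤
      9 / 50 * m + (Ln n : ℝ) / 580 := by
  sorry

end Pool.Agent.LR5
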