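import Mathlib
import Pool.Agent.LR4.TabChk

/-!
Lonely runner with speeds at most `2 n`: a faster kernel checker of the cells of the macroscopic
table. Parameters as in `TabChk`.

A certificate: a list `ct` of codes (`nv + 1` codes of 10 bits, the last one is `520`), a list of
clauses (36 bits each), a stream of instructions (10 bits each: the index of a clause).

Literals: the bit `i ≤ nv` means that the code `i` is not a speed, the bit `nv + 1 + i` that the
code `i` is a speed. A clause is a mask: not all of its literals are true. The bit `nv` (which is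
false) is in every mask (marker). The state `N`: the literals which are not known to be true.
-/

namespace Pool.Agent.LR5

open Pool.Agent.LR4

/-- The rest of the certificate. -/
abbrev Ih2 := ℕ → ℕ → (ℕ → Bool) → Bool

/-- The other cases of a step: conflict or decision. -/
def oth (c1 : ℕ) (ih : Ih2) (D low s N : ℕ) (k : ℕ → Bool) : Bool :=
  Bool.rec (motive := fun _ => Bool)
    (an (Nat.beq (Nat.mul low (Nat.succ c1)) D)
      (an (Nat.beq (Nat.land low (Nat.sub low (nat_lit 1))) (nat_lit 0))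
        (ih s (Nat.xor N low) fun s' => ih s' (Nat.xor N (Nat.mul low c1)) k)))
    (k s) (Nat.beq D (nat_lit 0))

/-- One step, second part. -/
def st2 (c1 c2 : ℕ) (ih : Ih2) (N : ℕ) (k : ℕ → Bool) (D s : ℕ) : Bool :=
  Bool.rec (motive := fun _ => Bool)
    (oth c1 ih D (Nat.mod D c1) s N k)
    (ih s (Nat.xor N (Nat.mod (Nat.mul D c1) c2)) k)
    (Nat.beq (Nat.succ (Nat.xor D (Nat.sub D (nat_lit 1)))) (Nat.add D D))

/-- One step. -/
def stp (tbl W mk c1 c2 : ℕ) (ih : Ih2) (s N : ℕ) (k : ℕ → Bool) : Bool :=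
  st2 c1 c2 ih N k
    (Nat.xor mk (Nat.land (Nat.shiftRight tbl (Nat.mul W (Nat.land s (nat_lit 1023)))) N))
    (Nat.shiftRight s (nat_lit 10))

/-- Twice. -/
def tw (f : Ih2 → Ih2) (ih : Ih2) : Ih2 := f (f ih)

/-- `2 ^ 13` times. -/
def tow (f : Ih2 → Ih2) : Ih2 → Ih2 :=
  tw (tw (tw (tw (tw (tw (tw (tw (tw (tw (tw (tw (tw f))))))))))))

/-- The run: unit propagation, at most `2 ^ 13` steps. -/
def prun (tbl W mk c1 c2 : ℕ) : Ih2 :=
  tow (stp tbl W mk c1 c2) (fun _ _ _ => false)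

/-- The code of a variable. -/
def cd (ct i : ℕ) : ℕ :=
  Nat.land (Nat.shiftRight ct (Nat.mul (nat_lit 10) i)) (nat_lit 1023)

/-- Zero. -/
def z0 (x : ℕ) (K : Bool) : Bool := Nat.rec (motive := fun _ => Bool) K (fun _ _ => false) x

/-- The parameters for coprimality: the residue of a code modulo `md`, up to sign. -/
def ee (rho md1 e0 md c q : ℕ) : ℕ :=
  Nat.mod (Nat.add (Nat.add (Nat.mul c rho) (Nat.mul md1 q)) e0) md

/-- Coprimality, second part. -/
def cop3 (sm D : ℕ) : Bool := Nat.beq (Nat.mod sm D) (nat_lit 0)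

/-- Coprimality, first part. -/
def cop2 (sm P N : ℕ) : Bool := cop3 sm (Nat.add (Nat.sub P N) (Nat.sub N P))

/-- Coprimality. -/
def cop (rho md1 e0 md sm c1 q1 c2 q2 : ℕ) : Bool :=
  an (Nat.beq (Nat.gcd (Nat.gcd (ee rho md1 e0 md c1 q1) (ee rho md1 e0 md c2 q2)) md)
      (nat_lit 1))
    (cop2 sm (Nat.add (Nat.mul c1 q2) (Nat.mul (nat_lit 512) (Nat.add c2 q1)))
      (Nat.add (Nat.mul c2 q1) (Nat.mul (nat_lit 512) (Nat.add c1 q2))))

/-- Quotients and coprimality: `A`, `B`, `C`, `D` are the positions times `dd`. -/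
def qc (rho md1 e0 md sm x y A B C D : ℕ) : Bool :=
  an (Nat.beq (Nat.div A (nat_lit 800000)) (Nat.div B (nat_lit 800000)))
    (an (Nat.beq (Nat.div C (nat_lit 800000)) (Nat.div D (nat_lit 800000)))
      (cop rho md1 e0 md sm x (Nat.div A (nat_lit 800000)) y (Nat.div C (nat_lit 800000))))

/-- A function of the positions of two codes. -/
def two (f : ℕ → ℕ → ℕ → ℕ → Bool) (rho md1 e0 md sm x y A B C D : ℕ) : Bool :=
  an (f (Nat.mod A (nat_lit 800000)) (Nat.mod B (nat_lit 800000)) (Nat.mod C (nat_lit 800000))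
    (Nat.mod D (nat_lit 800000))) (qc rho md1 e0 md sm x y A B C D)

/-- A function of the positions of two codes. -/
def tw2 (f : ℕ → ℕ → ℕ → ℕ → Bool) (G g0 G2 g02 rho md1 e0 md sm x y : ℕ) : Bool :=
  two f rho md1 e0 md sm x y (Nat.add (Nat.mul x G) g0) (Nat.add (Nat.mul x G2) g02)
    (Nat.add (Nat.mul y G) g0) (Nat.add (Nat.mul y G2) g02)

/-- Or. -/
def o2 (x y : Bool) : Bool := Bool.rec (motive := fun _ => Bool) y true x

/-- Triangle, the alternatives. -/
def triB (a b c d : ℕ) : Bool :=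
  o2 (Nat.beq (Nat.add (Nat.sub (Nat.add c c) (nat_lit 798857))
      (Nat.sub (Nat.add d d) (nat_lit 798857))) (nat_lit 0))
    (o2 (Nat.beq (Nat.add (Nat.sub (nat_lit 800000) (Nat.add (Nat.add a a) c))
        (Nat.sub (nat_lit 800000) (Nat.add (Nat.add b b) d))) (nat_lit 0))
      (z0 (Nat.add (Nat.sub (Nat.add (Nat.add a a) (Nat.mul (nat_lit 4) c)) (nat_lit 2396571))
        (Nat.sub (Nat.add (Nat.add b b) (Nat.mul (nat_lit 4) d)) (nat_lit 2396571))) true))

/-- Triangle. -/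
def triA (a b c d ac bd : ℕ) : Bool :=
  z0 (Nat.add (Nat.add (Nat.add (Nat.sub (nat_lit 1143) a) (Nat.sub (nat_lit 1143) b))
      (Nat.add (Nat.sub a c) (Nat.sub b d)))
    (Nat.add (Nat.add (Nat.sub ac (nat_lit 798857)) (Nat.sub bd (nat_lit 798857)))
      (Nat.add (Nat.sub (nat_lit 800000) (Nat.add ac c))
        (Nat.sub (nat_lit 800000) (Nat.add bd d))))) (triB a b c d)

/-- Triangle `x`, `y`, `x + y`. -/
def tri (a b c d : ℕ) : Bool := triA a b c d (Nat.add a c) (Nat.add b d)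

/-- Quadruple `x`, `y`, `x + y`, `2 x + y`. -/
def t4 (a b c d : ℕ) : Bool :=
  z0 (Nat.add (Nat.add (Nat.add (Nat.sub (nat_lit 1143) a) (Nat.sub (nat_lit 1143) b))
      (Nat.add (Nat.sub (nat_lit 1143) c) (Nat.sub (nat_lit 1143) d)))
    (Nat.add (Nat.add (Nat.sub (Nat.add (Nat.add a a) c) (nat_lit 798857))
        (Nat.sub (Nat.add (Nat.add b b) d) (nat_lit 798857)))
      (Nat.add (Nat.sub (nat_lit 800000) (Nat.add a (Nat.add c c)))
        (Nat.sub (nat_lit 800000) (Nat.add b (Nat.add d d)))))) true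

/-- Triple `q`, `2 q`, `y`. -/
def d2 (a b c d : ℕ) : Bool :=
  z0 (Nat.add (Nat.add (Nat.add (Nat.sub (nat_lit 1143) a) (Nat.sub (nat_lit 1143) b))
      (Nat.add (Nat.sub (Nat.add a a) (nat_lit 798857))
        (Nat.sub (Nat.add b b) (nat_lit 798857))))
    (Nat.add (Nat.add (Nat.sub (nat_lit 800000) (Nat.add a c))
        (Nat.sub (nat_lit 800000) (Nat.add b d)))
      (Nat.add (Nat.sub (Nat.add (Nat.mul (nat_lit 4) a) (Nat.add c c)) (nat_lit 2396571))
        (Nat.sub (Nat.add (Nat.mul (nat_lit 4) b) (Nat.add d d)) (nat_lit 2396571))))) true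

/-- A function of the positions of one code. -/
def one (f : ℕ → ℕ → Bool) (x A B : ℕ) : Bool :=
  an (f (Nat.mod A (nat_lit 800000)) (Nat.mod B (nat_lit 800000)))
    (an (Nat.beq (Nat.div A (nat_lit 800000)) (Nat.div B (nat_lit 800000)))
      (z0 (Nat.add (Nat.sub (nat_lit 256) x) (Nat.sub x (nat_lit 832))) true))

/-- Doubling `q`, `2 q`. -/
def db (a b : ℕ) : Bool :=
  z0 (Nat.add (Nat.sub (nat_lit 1143) a) (Nat.sub (nat_lit 1143) b))
    (o2 (Nat.beq (Nat.add (Nat.sub (Nat.mul (nat_lit 4) a) (nat_lit 796571))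
        (Nat.sub (Nat.mul (nat_lit 4) b) (nat_lit 796571))) (nat_lit 0))
      (z0 (Nat.add (Nat.add (Nat.sub (nat_lit 800000) (Nat.mul (nat_lit 3) a))
          (Nat.sub (nat_lit 800000) (Nat.mul (nat_lit 3) b)))
        (Nat.add (Nat.sub (Nat.add a a) (nat_lit 798857))
          (Nat.sub (Nat.add b b) (nat_lit 798857)))) true))

/-- Triple `q`, `2 q`, `3 q`. -/
def d3 (a b : ℕ) : Bool :=
  z0 (Nat.add (Nat.add (Nat.sub (nat_lit 1143) a) (Nat.sub (nat_lit 1143) b))
    (Nat.add (Nat.sub (Nat.mul (nat_lit 3) a) (nat_lit 797714))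
      (Nat.sub (Nat.mul (nat_lit 3) b) (nat_lit 797714)))) true

/-- Push the mask with the literals of missing codes `m`. -/
def psT (mk : ℕ) (K : ℕ → Bool) (m : ℕ) : Bool :=
  an (Nat.ble (Nat.succ m) mk) (K (Nat.add m mk))

/-- Push the mask with the literals of speeds `m`. -/
def psF (mk c1 : ℕ) (K : ℕ → Bool) (m : ℕ) : Bool :=
  an (Nat.ble (Nat.succ m) c1) (K (Nat.add (Nat.mul m c1) mk))

/-- Push a tautology. -/
def psV (mk c1 : ℕ) (K : ℕ → Bool) (m : ℕ) : Bool :=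
  an (Nat.ble (Nat.succ m) mk) (K (Nat.add (Nat.mul m (Nat.succ c1)) mk))

/-- A bit. -/
abbrev bt (i : ℕ) : ℕ := Nat.shiftLeft (nat_lit 1) i

/-- The check of a pair of codes, a parameter of the clause constructors. -/
abbrev Pr := (ℕ → ℕ → ℕ → ℕ → Bool) → ℕ → ℕ → Bool

/-- The check of one code. -/
abbrev Pr1 := (ℕ → ℕ → Bool) → ℕ → Bool

/-- Triangle: `x` and `y` are codes. -/
def cl1 (T : Pr) (ct mk i j k x y : ℕ) (K : ℕ → Bool) : Bool :=
  an (T tri x y) (an (Nat.beq (Nat.add (cd ct k) (nat_lit 512)) (Nat.add x y))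
    (psT mk K (Nat.lor (bt i) (Nat.lor (bt j) (bt k)))))

/-- Doubling. -/
def cl2 (U : Pr1) (ct mk i k x : ℕ) (K : ℕ → Bool) : Bool :=
  an (U db x) (an (Nat.beq (Nat.add (cd ct k) (nat_lit 512)) (Nat.add x x))
    (psT mk K (Nat.lor (bt i) (bt k))))

/-- Triple `x`, `2 x`, `y`. -/
def cl3 (T : Pr) (ct mk i j k x y : ℕ) (K : ℕ → Bool) : Bool :=
  an (T d2 x y) (an (Nat.beq (Nat.add (cd ct k) (nat_lit 512)) (Nat.add x x))
    (psT mk K (Nat.lor (bt i) (Nat.lor (bt j) (bt k)))))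

/-- Quadruple. -/
def cl4 (T : Pr) (ct mk i j k l x y : ℕ) (K : ℕ → Bool) : Bool :=
  an (T t4 x y) (an (Nat.beq (Nat.add (cd ct k) (nat_lit 512)) (Nat.add x y))
    (an (Nat.beq (Nat.add (cd ct l) (nat_lit 1024)) (Nat.add (Nat.add x x) y))
      (psT mk K (Nat.lor (Nat.lor (bt i) (bt l)) (Nat.lor (bt j) (bt k))))))

/-- Triple `x`, `2 x`, `3 x`. -/
def cl5 (U : Pr1) (ct mk i k l x : ℕ) (K : ℕ → Bool) : Bool :=
  an (U d3 x) (an (Nat.beq (Nat.add (cd ct k) (nat_lit 512)) (Nat.add x x))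
    (an (Nat.beq (Nat.add (cd ct l) (nat_lit 1024)) (Nat.add (Nat.add x x) x))
      (psT mk K (Nat.lor (bt i) (Nat.lor (bt l) (bt k))))))

/-- Label. -/
def cl6 (Y ct mk c1 i k l x : ℕ) (K : ℕ → Bool) : Bool :=
  an (Nat.beq (Nat.land (Nat.shiftRight Y (Nat.add (Nat.sub x (nat_lit 512))
      (Nat.sub (nat_lit 512) x))) (nat_lit 1)) (nat_lit 1))
    (an (Nat.beq (Nat.add (cd ct k) (nat_lit 512)) (Nat.add x x))
      (an (Nat.beq (Nat.add (cd ct l) (Nat.add x x)) (nat_lit 1536))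
        (psF mk c1 K (Nat.lor (bt i) (Nat.lor (bt l) (bt k))))))

/-- The other clauses. -/
def clo (T : Pr) (U : Pr1) (ct mk t i j k l : ℕ) (K : ℕ → Bool) : Bool :=
  sel Bool
    (cl2 U ct mk i k (cd ct i) K)
    (cl3 T ct mk i j k (cd ct i) (cd ct j) K)
    (cl4 T ct mk i j k l (cd ct i) (cd ct j) K)
    (cl5 U ct mk i k l (cd ct i) K) t

/-- Read one clause. -/
def cl (T : Pr) (U : Pr1) (Y ct mk c1 t i j k l : ℕ) (K : ℕ → Bool) : Bool :=
  Bool.rec (motive := fun _ => Bool)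
    (Bool.rec (motive := fun _ => Bool)
      (Bool.rec (motive := fun _ => Bool)
        (clo T U ct mk (Nat.sub t (nat_lit 3)) i j k l K)
        (psV mk c1 K (bt i)) (Nat.beq t (nat_lit 2)))
      (cl6 Y ct mk c1 i k l (cd ct i) K) (Nat.beq t (nat_lit 1)))
    (cl1 T ct mk i j k (cd ct i) (cd ct j) K) (Nat.beq t (nat_lit 0))

/-- Read the clauses: `W2 = 2 ^ W`. -/
def bld (C : ℕ → ℕ → ℕ → ℕ → ℕ → (ℕ → Bool) → Bool) (W2 nc : ℕ) :
    ℕ → ℕ → (ℕ → ℕ → Bool) → Bool :=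
  Nat.rec (motive := fun _ => ℕ → ℕ → (ℕ → ℕ → Bool) → Bool) (fun s tbl K => K s tbl)
    (fun _ ih s tbl K => C (Nat.land s (nat_lit 7))
      (Nat.land (Nat.shiftRight s (nat_lit 4)) (nat_lit 255))
      (Nat.land (Nat.shiftRight s (nat_lit 12)) (nat_lit 255))
      (Nat.land (Nat.shiftRight s (nat_lit 20)) (nat_lit 255))
      (Nat.land (Nat.shiftRight s (nat_lit 28)) (nat_lit 255)) fun m =>
      ih (Nat.shiftRight s (nat_lit 36)) (Nat.add (Nat.mul tbl W2) m) K) nc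

/-- The run with all parameters. -/
def fin (nv mk c1 W2 s tbl : ℕ) : Bool :=
  prun tbl (Nat.add (Nat.succ nv) (Nat.succ nv)) mk c1 (Nat.sub W2 (nat_lit 1)) s
    (Nat.sub (Nat.sub W2 (nat_lit 1)) (Nat.mul mk c1)) fun _ => true

/-- The clauses and the run. -/
def chk3 (T : Pr) (U : Pr1) (Y nv mk c1 W2 ct s1 : ℕ) : Bool :=
  an (Nat.beq (cd ct nv) (nat_lit 520))
    (bld (cl T U Y ct mk c1) W2 (Nat.land s1 (nat_lit 1023)) (Nat.shiftRight s1 (nat_lit 10))
      (nat_lit 0) fun s2 tbl => force tbl fun tbl2 => fin nv mk c1 W2 s2 tbl2)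

/-- The whole certificate of a cell. -/
def chk2 (T : Pr) (U : Pr1) (Y s : ℕ) : Bool :=
  force (Nat.land s (nat_lit 255)) fun nv =>
  force (Nat.shiftLeft (nat_lit 1) nv) fun mk =>
  force (Nat.add mk mk) fun c1 =>
  force (Nat.mul c1 c1) fun W2 =>
  force (Nat.mul (nat_lit 10) (Nat.succ nv)) fun t =>
  force (Nat.land (Nat.shiftRight s (nat_lit 8)) (Nat.sub (Nat.shiftLeft (nat_lit 1) t) (nat_lit 1)))
    fun ct =>
  force (Nat.shiftRight s (Nat.add (nat_lit 8) t)) fun s1 =>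
  chk3 T U Y nv mk c1 W2 ct s1

/-- The parameters. -/
def chk1 (md rho sm yy G G2 g0 g02 e0 md1 s : ℕ) : Bool :=
  chk2 (fun f => tw2 f G g0 G2 g02 rho md1 e0 md sm)
    (fun f x => one f x (Nat.add (Nat.mul x G) g0) (Nat.add (Nat.mul x G2) g02)) yy s

/-- One cell. -/
def cell2 (md rho sm yy G w s : ℕ) : Bool :=
  an (Nat.ble (G + w) 800000) (an (Nat.ble 1 w)
    (force (G + w) fun G2 => force (512 * (800000 - G)) fun g0 =>
      force (512 * (800000 - G2)) fun g02 => force (512 * (md + 1 - rho)) fun e0 =>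
      force (md - 1) fun md1 => chk1 md rho sm yy G G2 g0 g02 e0 md1 s))

end Pool.Agent.LR5
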