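import Mathlib
import Pool.Agent.LR5.Chk2
import Pool.Agent.LR4.ChkSound

/-!
Lonely runner with speeds at most `2 n`: the run of the fast table checker is sound, against an
abstract predicate `S` on the codes (`S c`: the number with the code `c` is a speed).
-/

namespace Pool.Agent.LR5

open Pool.Agent.LR4

/-! ### Bits -/

theorem shl_eq (x y : ℕ) : Nat.shiftLeft x y = x * 2 ^ y := Nat.shiftLeft_eq x y

theorem shr_eq (x y : ℕ) : Nat.shiftRight x y = x / 2 ^ y := Nat.shiftRight_eq_div_pow x y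

theorem bt_eq (i : ℕ) : bt i = 2 ^ i := by
  unfold bt
  rw [shl_eq]
  exact one_mul _

theorem lt_of_testBit {a z : ℕ} (h1 : a < 2 ^ (z + 1)) (h2 : a.testBit z = false) : a < 2 ^ z := by
  rw [Nat.testBit_eq_decide_div_mod_eq, decide_eq_false_iff_not] at h2
  have h3 : a / 2 ^ z < 2 := by
    rw [Nat.div_lt_iff_lt_mul (by positivity)]
    rw [pow_succ] at h1
    omega
  have h4 : a / 2 ^ z = 0 := by
    obtain ⟨q, hq⟩ : ∃ q, q = a / 2 ^ z := ⟨_, rfl⟩
    rw [← hq] at h2 h3 ⊢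
    omega
  rcases Nat.div_eq_zero_iff.1 h4 with h5 | h5
  · exact absurd h5 (by positivity)
  · exact h5

/-- The top bit of `x - 1` for `x` which is not a power of two. -/
theorem testBit_pred {x : ℕ} (hx : x ≠ 0) (hne : x ≠ 2 ^ x.log2) :
    (x - 1).testBit x.log2 = true := by
  have h1 : 2 ^ x.log2 ≤ x := Nat.log2_self_le hx
  have h2 : x < 2 ^ (x.log2 + 1) := Nat.lt_log2_self
  have h3 : 2 ^ x.log2 ≤ x - 1 := by omega
  rw [Nat.testBit_eq_decide_div_mod_eq, decide_eq_true_iff]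
  have h4 : (x - 1) / 2 ^ x.log2 = 1 := by
    have h6 : 1 ≤ (x - 1) / 2 ^ x.log2 := (Nat.one_le_div_iff (by positivity)).2 h3
    have h7 : (x - 1) / 2 ^ x.log2 < 2 := by
      rw [Nat.div_lt_iff_lt_mul (by positivity)]
      rw [pow_succ] at h2
      omega
    omega
  rw [h4]

/-- If `x land (x - 1) = 0` then `x` is `0` or a power of two. -/
theorem pow_of_land (x : ℕ) (hx : x ≠ 0) (h : x &&& (x - 1) = 0) : ∃ i, x = 2 ^ i := by
  refine ⟨x.log2, ?_⟩
  by_contra hne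
  have b1 : x.testBit x.log2 = true := Nat.testBit_log2 hx
  have b2 := testBit_pred hx hne
  have b3 : (x &&& (x - 1)).testBit x.log2 = true := by
    rw [Nat.testBit_and, b1, b2]
    rfl
  rw [h, Nat.zero_testBit] at b3
  exact Bool.noConfusion b3

/-- If `x xor (x - 1)` is `2 x - 1` then `x` is a power of two. -/
theorem pow_of_xor (x : ℕ) (h : (x ^^^ (x - 1)) + 1 = x + x) : ∃ i, x = 2 ^ i := by
  have hx : x ≠ 0 := by
    rintro rfl
    simp at h
  refine ⟨x.log2, ?_⟩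
  by_contra hne
  have b1 : x.testBit x.log2 = true := Nat.testBit_log2 hx
  have b2 := testBit_pred hx hne
  have h1 : 2 ^ x.log2 ≤ x := Nat.log2_self_le hx
  have h2 : x < 2 ^ (x.log2 + 1) := Nat.lt_log2_self
  have b3 : (x ^^^ (x - 1)).testBit x.log2 = false := by
    rw [Nat.testBit_xor, b1, b2]
    rfl
  have h3 := lt_of_testBit (Nat.xor_lt_two_pow h2 (by omega)) b3
  omega

/-! ### Literals, states, masks -/

section

variable (S : ℕ → Prop) (ct nv : ℕ)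

/-- The meaning of a literal. -/
def Lt (b : ℕ) : Prop := (b ≤ nv ∧ ¬ S (cd ct b)) ∨ (nv < b ∧ S (cd ct (b - (nv + 1))))

/-- The state is correct. -/
def Mk2 (N : ℕ) : Prop :=
  N < 2 ^ (2 * nv + 2) ∧ ∀ b, b < 2 * nv + 2 → N.testBit b = false → Lt S ct nv b

/-- The mask is a valid clause with the marker. -/
def Vm (m : ℕ) : Prop :=
  m.testBit nv = true ∧ ∃ b, b < 2 * nv + 2 ∧ b ≠ nv ∧ m.testBit b = true ∧ ¬ Lt S ct nv b

/-- All entries of the table are valid or zero. -/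
def Tb (tbl : ℕ) : Prop := ∀ i, (∀ b, b < 2 * nv + 2 →
    (tbl / 2 ^ ((2 * nv + 2) * i)).testBit b = false) ∨ Vm S ct nv (tbl / 2 ^ ((2 * nv + 2) * i))

/-- The meaning of a run with the result `b`. -/
def Rs2 (k : ℕ → Bool) (N : ℕ) (b : Bool) : Prop :=
  b = true → (∃ s', k s' = true) ∧ ¬ Mk2 S ct nv N

/-- A sound continuation. -/
def Sd (ih : Ih2) : Prop := ∀ s N k, Rs2 S ct nv k N (ih s N k)

end

variable {S : ℕ → Prop} {ct nv : ℕ}

theorem Lt.opp_low {b : ℕ} (h : b ≤ nv) : Lt S ct nv b ∨ Lt S ct nv (b + (nv + 1)) := by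
  by_cases hS : S (cd ct b)
  · right; right
    refine ⟨by omega, ?_⟩
    rw [Nat.add_sub_cancel]
    exact hS
  · left; left
    exact ⟨h, hS⟩

theorem Lt.opp_high {b : ℕ} (h : nv < b) : Lt S ct nv b ∨ Lt S ct nv (b - (nv + 1)) ∨
    ¬ (b < 2 * nv + 2) := by
  by_cases hb : b < 2 * nv + 2
  · have h1 := Lt.opp_low (S := S) (ct := ct) (nv := nv) (b := b - (nv + 1)) (by omega)
    rw [Nat.sub_add_cancel (by omega)] at h1
    tauto
  · exact Or.inr (Or.inr hb)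

/-- The opposite literal of a power of two. -/
theorem rot_low {i : ℕ} (hi : i < nv + 1) :
    (2 ^ i * 2 ^ (nv + 1)) % (2 ^ (2 * nv + 2) - 1) = 2 ^ (i + (nv + 1)) := by
  rw [← pow_add]
  apply Nat.mod_eq_of_lt
  have h1 : 2 ^ (i + (nv + 1)) ≤ 2 ^ (2 * nv + 1) := Nat.pow_le_pow_right (by norm_num) (by omega)
  have h2 : 2 ^ (2 * nv + 2) = 2 * 2 ^ (2 * nv + 1) := by rw [pow_succ]; ring
  have h3 : 2 ≤ 2 ^ (2 * nv + 1) := by
    calc 2 = 2 ^ 1 := rfl
      _ ≤ 2 ^ (2 * nv + 1) := Nat.pow_le_pow_right (by norm_num) (by omega)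
  omega

theorem rot_high {i : ℕ} (hi : nv + 1 ≤ i) (hi2 : i < 2 * nv + 2) :
    (2 ^ i * 2 ^ (nv + 1)) % (2 ^ (2 * nv + 2) - 1) = 2 ^ (i - (nv + 1)) := by
  have e : 2 ^ i * 2 ^ (nv + 1) = 2 ^ (i - (nv + 1)) +
      2 ^ (i - (nv + 1)) * (2 ^ (2 * nv + 2) - 1) := by
    have h1 : 2 ^ i * 2 ^ (nv + 1) = 2 ^ (i - (nv + 1)) * 2 ^ (2 * nv + 2) := by
      rw [← pow_add, ← pow_add]
      congr 1
      omega
    rw [h1, Nat.mul_sub, mul_one]
    have h2 : 2 ^ (i - (nv + 1)) ≤ 2 ^ (i - (nv + 1)) * 2 ^ (2 * nv + 2) :=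
      Nat.le_mul_of_pos_right _ (by positivity)
    omega
  rw [e, Nat.add_mul_mod_self_right]
  apply Nat.mod_eq_of_lt
  have h1 : 2 ^ (i - (nv + 1)) ≤ 2 ^ nv := Nat.pow_le_pow_right (by norm_num) (by omega)
  have h2 : 2 ^ (2 * nv + 2) = 4 * 2 ^ (2 * nv) := by rw [pow_add]; ring
  have h3 : 2 ^ nv ≤ 2 ^ (2 * nv) := Nat.pow_le_pow_right (by norm_num) (by omega)
  have h4 : 1 ≤ 2 ^ nv := Nat.one_le_two_pow
  omega

/-- Add one true literal to the state. -/
theorem Mk2.add {N z : ℕ} (h : Mk2 S ct nv N) (hz : z < 2 * nv + 2) (hL : Lt S ct nv z) :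
    Mk2 S ct nv (N ^^^ 2 ^ z) := by
  refine ⟨Nat.xor_lt_two_pow h.1 (Nat.pow_lt_pow_right (by norm_num) hz), fun b hb hN => ?_⟩
  rw [Nat.testBit_xor] at hN
  by_cases hbz : b = z
  · exact hbz ▸ hL
  · rw [Nat.testBit_two_pow_of_ne (fun h => hbz h.symm), Bool.xor_false] at hN
    exact h.2 b hb hN

/-- The step, in ordinary form. -/
theorem stp_eq (tbl W mk c1 c2 : ℕ) (ih : Ih2) (s N : ℕ) (k : ℕ → Bool) :
    stp tbl W mk c1 c2 ih s N k =
      st2 c1 c2 ih N k (mk ^^^ ((tbl / 2 ^ (W * (s &&& 1023))) &&& N)) (s >>> 10) := by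
  unfold stp
  rw [shr_eq]
  rfl

section

variable (hS : S (cd ct nv))
include hS

/-- The key facts about one clause. -/
theorem step_key {tbl N i : ℕ} (hT : Tb S ct nv tbl) (hN : Mk2 S ct nv N) :
    (2 ^ nv ^^^ ((tbl / 2 ^ ((2 * nv + 2) * i)) &&& N) ≠ 0) ∧
    (2 ^ nv ^^^ ((tbl / 2 ^ ((2 * nv + 2) * i)) &&& N) < 2 ^ (2 * nv + 2)) ∧
    (∀ z, 2 ^ nv ^^^ ((tbl / 2 ^ ((2 * nv + 2) * i)) &&& N) = 2 ^ z → z < 2 * nv + 2 ∧
      ((z ≤ nv ∧ Lt S ct nv (z + (nv + 1))) ∨ (nv < z ∧ Lt S ct nv (z - (nv + 1))))) := by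
  have hnL : ¬ Lt S ct nv nv := by
    rintro (⟨_, h⟩ | ⟨h, _⟩)
    · exact h hS
    · exact lt_irrefl _ h
  have hNnv : N.testBit nv = true := by
    by_contra h
    exact hnL (hN.2 nv (by omega) (by simpa using h))
  obtain ⟨m, hm⟩ : ∃ m, m = tbl / 2 ^ ((2 * nv + 2) * i) := ⟨_, rfl⟩
  have hTm := hT i
  rw [← hm] at hTm ⊢
  obtain ⟨D, hD⟩ : ∃ D, D = 2 ^ nv ^^^ (m &&& N) := ⟨_, rfl⟩
  rw [← hD]
  have hbit : ∀ b, D.testBit b = ((decide (nv = b)) ^^ (m.testBit b && N.testBit b)) := by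
    intro b
    rw [hD, Nat.testBit_xor, Nat.testBit_and, Nat.testBit_two_pow]
  have hDlt : D < 2 ^ (2 * nv + 2) := by
    rw [hD]
    refine Nat.xor_lt_two_pow (Nat.pow_lt_pow_right (by norm_num) (by omega)) ?_
    exact lt_of_le_of_lt Nat.and_le_right hN.1
  refine ⟨?_, hDlt, ?_⟩
  · intro h0
    rcases hTm with h1 | ⟨h1, b, hb1, hb2, hb3, hb4⟩
    · have h2 := hbit nv
      rw [h0, h1 nv (by omega)] at h2
      simp at h2
    · have h2 := hbit b
      rw [h0, hb3] at h2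
      have h3 : decide (nv = b) = false := by simpa using fun h => hb2 h.symm
      rw [h3] at h2
      have h4 : N.testBit b = false := by simpa using h2.symm
      exact hb4 (hN.2 b hb1 h4)
  · intro z hz
    have hz2 : z < 2 * nv + 2 := by
      rw [hz] at hDlt
      exact (Nat.pow_lt_pow_iff_right (by norm_num)).1 hDlt
    refine ⟨hz2, ?_⟩
    rcases hTm with h1 | ⟨h1, b, hb1, hb2, hb3, hb4⟩
    · -- zero entry: `D = 2 ^ nv`
      have h2 := hbit nv
      rw [h1 nv (by omega), hz, Nat.testBit_two_pow] at h2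
      have h3 : z = nv := by simpa using h2
      left
      refine ⟨by omega, Or.inr ⟨by omega, ?_⟩⟩
      rw [h3, Nat.add_sub_cancel]
      exact hS
    · have hNb : N.testBit b = true := by
        by_contra h
        exact hb4 (hN.2 b hb1 (by simpa using h))
      have h2 := hbit b
      have h3 : decide (nv = b) = false := by simpa using fun h => hb2 h.symm
      rw [h3, hb3, hNb, hz, Nat.testBit_two_pow] at h2
      have h4 : z = b := by simpa using h2
      rw [← h4] at hb4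
      rcases Nat.lt_or_ge nv z with h5 | h5
      · right
        refine ⟨h5, ?_⟩
        rcases Lt.opp_high (S := S) (ct := ct) h5 with h6 | h6 | h6
        · exact absurd h6 hb4
        · exact h6
        · exact absurd hz2 h6
      · left
        refine ⟨h5, ?_⟩
        rcases Lt.opp_low (S := S) (ct := ct) h5 with h6 | h6
        · exact absurd h6 hb4
        · exact h6

/-- One step is sound. -/
theorem stp_sd {tbl : ℕ} (hT : Tb S ct nv tbl) {ih : Ih2} (hih : Sd S ct nv ih) :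
    Sd S ct nv (stp tbl (2 * nv + 2) (2 ^ nv) (2 ^ (nv + 1)) (2 ^ (2 * nv + 2) - 1) ih) := by
  intro s N k hb
  rw [stp_eq] at hb
  obtain ⟨D, hD⟩ : ∃ D, D = 2 ^ nv ^^^ ((tbl / 2 ^ ((2 * nv + 2) * (s &&& 1023))) &&& N) :=
    ⟨_, rfl⟩
  rw [← hD] at hb
  have key : Mk2 S ct nv N → D ≠ 0 ∧ D < 2 ^ (2 * nv + 2) ∧ ∀ z, D = 2 ^ z → z < 2 * nv + 2 ∧
      ((z ≤ nv ∧ Lt S ct nv (z + (nv + 1))) ∨ (nv < z ∧ Lt S ct nv (z - (nv + 1)))) := by
    intro hN
    rw [hD]
    exact step_key hS hT hN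
  unfold st2 at hb
  cases h1 : Nat.beq (Nat.succ (Nat.xor D (Nat.sub D 1))) (Nat.add D D) with
  | true =>
    rw [h1] at hb
    have hb' : ih (s >>> 10) (N ^^^ (D * 2 ^ (nv + 1) % (2 ^ (2 * nv + 2) - 1))) k = true := hb
    obtain ⟨h2, h3⟩ := hih _ _ _ hb'
    refine ⟨h2, fun hN => h3 ?_⟩
    have h4 : (D ^^^ (D - 1)) + 1 = D + D := Nat.eq_of_beq_eq_true h1
    obtain ⟨z, hz⟩ := pow_of_xor D h4
    obtain ⟨_, _, hk⟩ := key hN
    obtain ⟨hz2, hz3⟩ := hk z hz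
    rcases hz3 with ⟨h5, h6⟩ | ⟨h5, h6⟩
    · rw [hz, rot_low (by omega)]
      exact hN.add (by omega) h6
    · rw [hz, rot_high (by omega) hz2]
      exact hN.add (by omega) h6
  | false =>
    rw [h1] at hb
    have hb1 : oth (2 ^ (nv + 1)) ih D (D % 2 ^ (nv + 1)) (s >>> 10) N k = true := hb
    unfold oth at hb1
    cases h2 : Nat.beq D 0 with
    | true =>
      rw [h2] at hb1
      have hb2 : k (s >>> 10) = true := hb1
      refine ⟨⟨_, hb2⟩, fun hN => (key hN).1 (Nat.eq_of_beq_eq_true h2)⟩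
    | false =>
      rw [h2] at hb1
      obtain ⟨low, hlow⟩ : ∃ low, low = D % 2 ^ (nv + 1) := ⟨_, rfl⟩
      rw [← hlow] at hb1
      obtain ⟨e1, hb2⟩ := an_and hb1
      obtain ⟨e2, hb3⟩ := an_and hb2
      have g1 : low * (2 ^ (nv + 1) + 1) = D := Nat.eq_of_beq_eq_true e1
      have g2 : low &&& (low - 1) = 0 := Nat.eq_of_beq_eq_true e2
      obtain ⟨⟨s1, h3⟩, h4⟩ := hih _ _ _ hb3
      obtain ⟨h5, h6⟩ := hih _ _ _ h3
      refine ⟨h5, fun hN => ?_⟩
      obtain ⟨hD0, hDlt, _⟩ := key hN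
      have hlow0 : low ≠ 0 := by
        rintro rfl
        exact hD0 (by rw [← g1, Nat.zero_mul])
      obtain ⟨i, hi⟩ := pow_of_land low hlow0 g2
      have hi2 : i < nv + 1 := by
        rw [← g1, hi] at hDlt
        have h7 : 2 ^ i * 2 ^ (nv + 1) < 2 ^ (2 * nv + 2) :=
          lt_of_le_of_lt (Nat.mul_le_mul_left _ (by omega)) hDlt
        rw [← pow_add] at h7
        have h8 := (Nat.pow_lt_pow_iff_right (by norm_num)).1 h7
        omega
      rcases Lt.opp_low (S := S) (ct := ct) (nv := nv) (b := i) (by omega) with h7 | h7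
      · apply h4
        have h8 := hN.add (z := i) (by omega) h7
        rw [← hi] at h8
        exact h8
      · apply h6
        have h8 := hN.add (z := i + (nv + 1)) (by omega) h7
        have e : low * 2 ^ (nv + 1) = 2 ^ (i + (nv + 1)) := by
          rw [hi]
          exact (pow_add 2 i (nv + 1)).symm
        rw [← e] at h8
        exact h8

omit hS in
theorem tw_sd {f : Ih2 → Ih2} (hf : ∀ ih, Sd S ct nv ih → Sd S ct nv (f ih)) :
    ∀ ih, Sd S ct nv ih → Sd S ct nv (tw f ih) := fun ih hih => hf _ (hf ih hih)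

omit hS in
theorem tow_sd {f : Ih2 → Ih2} (h0 : ∀ ih, Sd S ct nv ih → Sd S ct nv (f ih)) :
    ∀ ih, Sd S ct nv ih → Sd S ct nv (tow f ih) := by
  have h1 := tw_sd h0
  have h2 := tw_sd h1
  have h3 := tw_sd h2
  have h4 := tw_sd h3
  have h5 := tw_sd h4
  have h6 := tw_sd h5
  have h7 := tw_sd h6
  have h8 := tw_sd h7
  have h9 := tw_sd h8
  have h10 := tw_sd h9
  have h11 := tw_sd h10
  have h12 := tw_sd h11
  exact tw_sd h12

/-- A run is sound. -/
theorem prun_sd {tbl : ℕ} (hT : Tb S ct nv tbl) :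
    Sd S ct nv (prun tbl (2 * nv + 2) (2 ^ nv) (2 ^ (nv + 1)) (2 ^ (2 * nv + 2) - 1)) := by
  have h0 : ∀ ih, Sd S ct nv ih → Sd S ct nv
      (stp tbl (2 * nv + 2) (2 ^ nv) (2 ^ (nv + 1)) (2 ^ (2 * nv + 2) - 1) ih) :=
    fun ih hih => stp_sd hS hT hih
  exact tow_sd h0 _ (fun s N k h => Bool.noConfusion h)

end

end Pool.Agent.LR5
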