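import Mathlib
import Pool.Agent.LR5.Run2

/-!
Lonely runner with speeds at most `2 n`: the clauses of the fast table checker are valid, against an
abstract predicate `S` on the codes.
-/

namespace Pool.Agent.LR5

open Pool.Agent.LR4

/-- The facts used by the checker. -/
structure TF2 (T : Pr) (U : Pr1) (Y : ℕ) (S : ℕ → Prop) : Prop where
  tri : ∀ x y z, T tri x y = true → z + 512 = x + y → ¬ S x → ¬ S y → S z
  d2 : ∀ x y z, T d2 x y = true → z + 512 = x + x → ¬ S x → ¬ S z → S y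
  t4 : ∀ x y z u, T t4 x y = true → z + 512 = x + y → u + 1024 = x + x + y →
    ¬ S x → ¬ S y → ¬ S z → S u
  db : ∀ x z, U db x = true → z + 512 = x + x → ¬ S x → S z
  d3 : ∀ x z u, U d3 x = true → z + 512 = x + x → u + 1024 = x + x + x → ¬ S x → ¬ S z → S u
  lb : ∀ x z u, tb Y ((x - 512) + (512 - x)) = true → z + 512 = x + x → u + (x + x) = 1536 →
    S z → S u → ¬ S x

variable {S : ℕ → Prop} {ct nv : ℕ}

/-- The value of a clause constructor: the continuation gets a valid mask. -/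
def Cr (S : ℕ → Prop) (ct nv : ℕ) (K : ℕ → Bool) (b : Bool) : Prop :=
  b = true → ∃ m, m < 2 ^ (2 * nv + 2) ∧ Vm S ct nv m ∧ K m = true

theorem ent_lt {a b : ℕ} (ha : a < 2 ^ (nv + 1)) (hb : b < 2 ^ (nv + 1)) :
    2 ^ (nv + 1) * a + b < 2 ^ (2 * nv + 2) := by
  have h1 : 2 ^ (2 * nv + 2) = 2 ^ (nv + 1) * 2 ^ (nv + 1) := by
    rw [← pow_add]; congr 1; ring
  have h2 : 2 ^ (nv + 1) * a + 2 ^ (nv + 1) ≤ 2 ^ (nv + 1) * 2 ^ (nv + 1) := by
    rw [← Nat.mul_succ]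
    exact Nat.mul_le_mul_left _ ha
  omega

theorem ent_vm {a b : ℕ} (hb : b < 2 ^ (nv + 1)) (hn : b.testBit nv = true)
    (h : (∃ i, i < nv ∧ b.testBit i = true ∧ S (cd ct i)) ∨
      (∃ i, i ≤ nv ∧ a.testBit i = true ∧ ¬ S (cd ct i))) :
    Vm S ct nv (2 ^ (nv + 1) * a + b) := by
  have hbit := fun j => Nat.testBit_two_pow_mul_add a hb j
  refine ⟨?_, ?_⟩
  · rw [hbit, if_pos (by omega)]
    exact hn
  · rcases h with ⟨i, h1, h2, h3⟩ | ⟨i, h1, h2, h3⟩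
    · refine ⟨i, by omega, by omega, ?_, ?_⟩
      · rw [hbit, if_pos (by omega)]
        exact h2
      · rintro (⟨_, h4⟩ | ⟨h4, _⟩)
        · exact h4 h3
        · omega
    · refine ⟨nv + 1 + i, by omega, by omega, ?_, ?_⟩
      · rw [hbit, if_neg (by omega), Nat.add_sub_cancel_left]
        exact h2
      · rintro (⟨h4, _⟩ | ⟨_, h4⟩)
        · omega
        · rw [Nat.add_sub_cancel_left] at h4
          exact h3 h4

theorem mk_lt : 2 ^ nv < 2 ^ (nv + 1) := Nat.pow_lt_pow_right (by norm_num) (by omega)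

theorem bit_lt {m i k : ℕ} (hm : m < 2 ^ k) (h : m.testBit i = true) : i < k := by
  have h1 := Nat.ge_two_pow_of_testBit h
  exact (Nat.pow_lt_pow_iff_right (by norm_num)).1 (lt_of_le_of_lt h1 hm)

theorem addmk_lt {m : ℕ} (hm : m < 2 ^ nv) : m + 2 ^ nv < 2 ^ (nv + 1) := by
  rw [pow_succ]; omega

theorem addmk_bit {m : ℕ} (hm : m < 2 ^ nv) : (m + 2 ^ nv).testBit nv = true := by
  rw [add_comm, Nat.testBit_two_pow_add_eq, Nat.testBit_lt_two_pow hm]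
  rfl

theorem addmk_low {m i : ℕ} (hi : i < nv) : (m + 2 ^ nv).testBit i = m.testBit i := by
  rw [add_comm]
  exact Nat.testBit_two_pow_add_gt hi m

theorem psT_cr {m : ℕ} {K : ℕ → Bool} (h : ∃ b, m.testBit b = true ∧ S (cd ct b)) :
    Cr S ct nv K (psT (2 ^ nv) K m) := by
  intro hb
  unfold psT at hb
  obtain ⟨h1, h2⟩ := an_and hb
  have h3 : m < 2 ^ nv := Nat.le_of_ble_eq_true h1
  obtain ⟨i, hi1, hi2⟩ := h
  have hi := bit_lt h3 hi1
  have e : m + 2 ^ nv = 2 ^ (nv + 1) * 0 + (m + 2 ^ nv) := by ring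
  refine ⟨m + 2 ^ nv, ?_, ?_, h2⟩
  · rw [e]
    exact ent_lt (by positivity) (addmk_lt h3)
  · rw [e]
    exact ent_vm (addmk_lt h3) (addmk_bit h3) (Or.inl ⟨i, hi, by rw [addmk_low hi]; exact hi1, hi2⟩)

theorem psF_cr {m : ℕ} {K : ℕ → Bool} (h : ∃ b, m.testBit b = true ∧ ¬ S (cd ct b)) :
    Cr S ct nv K (psF (2 ^ nv) (2 ^ (nv + 1)) K m) := by
  intro hb
  unfold psF at hb
  obtain ⟨h1, h2⟩ := an_and hb
  have h3 : m < 2 ^ (nv + 1) := Nat.le_of_ble_eq_true h1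
  obtain ⟨i, hi1, hi2⟩ := h
  have hi := bit_lt h3 hi1
  have e : m * 2 ^ (nv + 1) + 2 ^ nv = 2 ^ (nv + 1) * m + 2 ^ nv := by ring
  refine ⟨m * 2 ^ (nv + 1) + 2 ^ nv, ?_, ?_, h2⟩
  · rw [e]
    exact ent_lt h3 mk_lt
  · rw [e]
    refine ent_vm mk_lt (by simp) (Or.inr ⟨i, by omega, hi1, hi2⟩)

theorem psV_cr {i : ℕ} {K : ℕ → Bool} :
    Cr S ct nv K (psV (2 ^ nv) (2 ^ (nv + 1)) K (bt i)) := by
  intro hb
  unfold psV at hb
  rw [bt_eq] at hb
  obtain ⟨h1, h2⟩ := an_and hb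
  have h3 : 2 ^ i < 2 ^ nv := Nat.le_of_ble_eq_true h1
  have hi : i < nv := (Nat.pow_lt_pow_iff_right (by norm_num)).1 h3
  have e : 2 ^ i * (2 ^ (nv + 1) + 1) + 2 ^ nv = 2 ^ (nv + 1) * 2 ^ i + (2 ^ i + 2 ^ nv) := by
    ring
  refine ⟨2 ^ i * (2 ^ (nv + 1) + 1) + 2 ^ nv, ?_, ?_, h2⟩
  · rw [e]
    exact ent_lt (h3.trans mk_lt) (addmk_lt h3)
  · rw [e]
    refine ent_vm (addmk_lt h3) (addmk_bit h3) ?_
    by_cases hS : S (cd ct i)
    · left
      refine ⟨i, hi, ?_, hS⟩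
      rw [addmk_low hi, Nat.testBit_two_pow_self]
    · right
      exact ⟨i, by omega, Nat.testBit_two_pow_self, hS⟩

theorem Cr.an {K : ℕ → Bool} {a b : Bool} (h : a = true → Cr S ct nv K b) :
    Cr S ct nv K (LR4.an a b) := by
  intro hb
  obtain ⟨h1, h2⟩ := an_and hb
  exact h h1 h2

theorem lor_l {a b i : ℕ} (h : a.testBit i = true) : (Nat.lor a b).testBit i = true := by
  have h1 : Nat.lor a b = a ||| b := rfl
  rw [h1, Nat.testBit_or, h]
  rfl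

theorem lor_r {a b i : ℕ} (h : b.testBit i = true) : (Nat.lor a b).testBit i = true := by
  have h1 : Nat.lor a b = a ||| b := rfl
  rw [h1, Nat.testBit_or, h, Bool.or_true]

theorem bt_self (i : ℕ) : (bt i).testBit i = true := by
  rw [bt_eq]
  exact Nat.testBit_two_pow_self

section

variable {T : Pr} {U : Pr1} {Y : ℕ} (hf : TF2 T U Y S)
include hf

theorem cl1_cr {i j k : ℕ} {K : ℕ → Bool} :
    Cr S ct nv K (cl1 T ct (2 ^ nv) i j k (cd ct i) (cd ct j) K) := by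
  unfold cl1
  refine Cr.an fun h1 => Cr.an fun h2 => psT_cr ?_
  have g2 : cd ct k + 512 = cd ct i + cd ct j := Nat.eq_of_beq_eq_true h2
  by_cases hi : S (cd ct i)
  · exact ⟨i, lor_l (bt_self i), hi⟩
  by_cases hj : S (cd ct j)
  · exact ⟨j, lor_r (lor_l (bt_self j)), hj⟩
  exact ⟨k, lor_r (lor_r (bt_self k)), hf.tri _ _ _ h1 g2 hi hj⟩

theorem cl2_cr {i k : ℕ} {K : ℕ → Bool} :
    Cr S ct nv K (cl2 U ct (2 ^ nv) i k (cd ct i) K) := by
  unfold cl2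
  refine Cr.an fun h1 => Cr.an fun h2 => psT_cr ?_
  have g2 : cd ct k + 512 = cd ct i + cd ct i := Nat.eq_of_beq_eq_true h2
  by_cases hi : S (cd ct i)
  · exact ⟨i, lor_l (bt_self i), hi⟩
  exact ⟨k, lor_r (bt_self k), hf.db _ _ h1 g2 hi⟩

theorem cl3_cr {i j k : ℕ} {K : ℕ → Bool} :
    Cr S ct nv K (cl3 T ct (2 ^ nv) i j k (cd ct i) (cd ct j) K) := by
  unfold cl3
  refine Cr.an fun h1 => Cr.an fun h2 => psT_cr ?_
  have g2 : cd ct k + 512 = cd ct i + cd ct i := Nat.eq_of_beq_eq_true h2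
  by_cases hi : S (cd ct i)
  · exact ⟨i, lor_l (bt_self i), hi⟩
  by_cases hk : S (cd ct k)
  · exact ⟨k, lor_r (lor_r (bt_self k)), hk⟩
  exact ⟨j, lor_r (lor_l (bt_self j)), hf.d2 _ _ _ h1 g2 hi hk⟩

theorem cl4_cr {i j k l : ℕ} {K : ℕ → Bool} :
    Cr S ct nv K (cl4 T ct (2 ^ nv) i j k l (cd ct i) (cd ct j) K) := by
  unfold cl4
  refine Cr.an fun h1 => Cr.an fun h2 => Cr.an fun h3 => psT_cr ?_
  have g2 : cd ct k + 512 = cd ct i + cd ct j := Nat.eq_of_beq_eq_true h2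
  have g3 : cd ct l + 1024 = cd ct i + cd ct i + cd ct j := Nat.eq_of_beq_eq_true h3
  by_cases hi : S (cd ct i)
  · exact ⟨i, lor_l (lor_l (bt_self i)), hi⟩
  by_cases hj : S (cd ct j)
  · exact ⟨j, lor_r (lor_l (bt_self j)), hj⟩
  by_cases hk : S (cd ct k)
  · exact ⟨k, lor_r (lor_r (bt_self k)), hk⟩
  exact ⟨l, lor_l (lor_r (bt_self l)), hf.t4 _ _ _ _ h1 g2 g3 hi hj hk⟩

theorem cl5_cr {i k l : ℕ} {K : ℕ → Bool} :
    Cr S ct nv K (cl5 U ct (2 ^ nv) i k l (cd ct i) K) := by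
  unfold cl5
  refine Cr.an fun h1 => Cr.an fun h2 => Cr.an fun h3 => psT_cr ?_
  have g2 : cd ct k + 512 = cd ct i + cd ct i := Nat.eq_of_beq_eq_true h2
  have g3 : cd ct l + 1024 = cd ct i + cd ct i + cd ct i := Nat.eq_of_beq_eq_true h3
  by_cases hi : S (cd ct i)
  · exact ⟨i, lor_l (bt_self i), hi⟩
  by_cases hk : S (cd ct k)
  · exact ⟨k, lor_r (lor_r (bt_self k)), hk⟩
  exact ⟨l, lor_r (lor_l (bt_self l)), hf.d3 _ _ _ h1 g2 g3 hi hk⟩

theorem cl6_cr {i k l : ℕ} {K : ℕ → Bool} :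
    Cr S ct nv K (cl6 Y ct (2 ^ nv) (2 ^ (nv + 1)) i k l (cd ct i) K) := by
  unfold cl6
  refine Cr.an fun h1 => Cr.an fun h2 => Cr.an fun h3 => psF_cr ?_
  have g2 : cd ct k + 512 = cd ct i + cd ct i := Nat.eq_of_beq_eq_true h2
  have g3 : cd ct l + (cd ct i + cd ct i) = 1536 := Nat.eq_of_beq_eq_true h3
  by_cases hk : S (cd ct k)
  · by_cases hl : S (cd ct l)
    · exact ⟨i, lor_l (bt_self i), hf.lb _ _ _ h1 g2 g3 hk hl⟩
    · exact ⟨l, lor_r (lor_l (bt_self l)), hl⟩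
  · exact ⟨k, lor_r (lor_r (bt_self k)), hk⟩

theorem clo_cr {t i j k l : ℕ} {K : ℕ → Bool} :
    Cr S ct nv K (clo T U ct (2 ^ nv) t i j k l K) := by
  unfold clo
  rcases t with _ | _ | _ | t
  · exact cl2_cr hf
  · exact cl3_cr hf
  · exact cl4_cr hf
  · exact cl5_cr hf

theorem cl_cr {t i j k l : ℕ} {K : ℕ → Bool} :
    Cr S ct nv K (cl T U Y ct (2 ^ nv) (2 ^ (nv + 1)) t i j k l K) := by
  unfold cl
  cases Nat.beq t 0 with
  | true => exact cl1_cr hf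
  | false =>
    cases Nat.beq t 1 with
    | true => exact cl6_cr hf
    | false =>
      cases Nat.beq t 2 with
      | true => exact psV_cr
      | false => exact clo_cr hf

end

/-- Push a valid mask. -/
theorem Tb.push {tbl m : ℕ} (h : Tb S ct nv tbl) (hm : m < 2 ^ (2 * nv + 2))
    (hv : Vm S ct nv m) : Tb S ct nv (tbl * 2 ^ (2 * nv + 2) + m) := by
  intro i
  rcases i with _ | i
  · right
    rw [mul_zero, pow_zero, Nat.div_one]
    have hbit : ∀ j, j < 2 * nv + 2 →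
        (tbl * 2 ^ (2 * nv + 2) + m).testBit j = m.testBit j := by
      intro j hj
      rw [mul_comm, Nat.testBit_two_pow_mul_add tbl hm j, if_pos hj]
    obtain ⟨h1, b, h2, h3, h4, h5⟩ := hv
    refine ⟨?_, b, h2, h3, ?_, h5⟩
    · rw [hbit nv (by omega)]
      exact h1
    · rw [hbit b h2]
      exact h4
  · have e : (tbl * 2 ^ (2 * nv + 2) + m) / 2 ^ ((2 * nv + 2) * (i + 1)) =
        tbl / 2 ^ ((2 * nv + 2) * i) := by
      have e1 : 2 ^ ((2 * nv + 2) * (i + 1)) =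
          2 ^ (2 * nv + 2) * 2 ^ ((2 * nv + 2) * i) := by
        rw [← pow_add]
        congr 1
        ring
      rw [e1, ← Nat.div_div_eq_div_mul]
      congr 1
      rw [mul_comm, Nat.mul_add_div (by positivity), Nat.div_eq_of_lt hm, add_zero]
    rw [e]
    exact h i

theorem Tb.zero : Tb S ct nv 0 := by
  intro i
  left
  intro b _
  rw [Nat.zero_div, Nat.zero_testBit]

/-- The clauses are read correctly. -/
theorem bld_sd {C : ℕ → ℕ → ℕ → ℕ → ℕ → (ℕ → Bool) → Bool}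
    (hC : ∀ t i j k l K, Cr S ct nv K (C t i j k l K)) (nc : ℕ) :
    ∀ s tbl K, Tb S ct nv tbl → bld C (2 ^ (2 * nv + 2)) nc s tbl K = true →
      ∃ s' tbl', Tb S ct nv tbl' ∧ K s' tbl' = true := by
  induction nc with
  | zero =>
    intro s tbl K hT h
    exact ⟨s, tbl, hT, h⟩
  | succ nc ih =>
    intro s tbl K hT h
    obtain ⟨m, hm1, hm2, hm3⟩ := hC _ _ _ _ _ _ h
    exact ih _ _ K (hT.push hm1 hm2) hm3

end Pool.Agent.LR5
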