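import Mathlib
import Pool.Agent.LR5.BB

/-!
# LR5 / VV : few `x` in a class have `x` and `M - x` both speeds
-/

namespace Pool.Agent.LR5

open Finset Pool.Agent.LR2 Pool.Agent.LR4

/-- `VV` pairs with even start `z`.
Proof: `z + 1680 j = 2 h` with `h = z / 2 + 840 j`. If `h ∉ Lost` (injective in `j`) then
`h ∉ V`, `M - h ∉ V` (`label`). For `j = 2 i`: `h = z / 2 + 1680 i`, `i ≤ m / 2`; for
`j = 2 i - 1`: `h = (z / 2 - 840) + 1680 i`, `i ≤ (m + 1) / 2`: apply `bb_count` twice with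
`m' = (m + 1) / 2`. Total `9/50 (m + 1) + 2 L / 580 + #Lost`. -/
theorem vv_even {n M : ℕ} {V : Finset ℕ} (H : Hyp n M V) (z m : ℕ) (hz : Even z)
    (hm : m ≤ Ln n) (h1 : 1680 * m + 5040 ≤ z) (h2 : z + 1680 * m + 3360 ≤ 2 * n) :
    (((Icc 1 m).filter (fun j => z + 1680 * j ∈ V ∧ M - (z + 1680 * j) ∈ V)).card : ℝ) ≤
      9 / 50 * m + (Ln n : ℝ) / 270 := by
  sorry

/-- `VV` pairs.
Proof: `z` even: `vv_even`. `z` odd: `j ↦ m + 1 - j` maps the set to the set for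
`z' = M - z - 1680 (m + 1)` (even): `M - (z + 1680 j) = z' + 1680 (m + 1 - j)`. -/
theorem vv_count {n M : ℕ} {V : Finset ℕ} (H : Hyp n M V) (z m : ℕ) (hm : m ≤ Ln n)
    (h1 : 1680 * m + 5040 ≤ z) (h2 : z + 3360 * m + 6720 ≤ 2 * n)
    (h3 : M + 1680 ≤ 2 * n + z) :
    (((Icc 1 m).filter (fun j => z + 1680 * j ∈ V ∧ M - (z + 1680 * j) ∈ V)).card : ℝ) ≤
      9 / 50 * m + (Ln n : ℝ) / 270 := by
  sorry

end Pool.Agent.LR5
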