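import Mathlib
import Pool.Agent.LR5.VV

/-!
# LR5 / Climb : missing speeds climb
-/

namespace Pool.Agent.LR5

open Finset Pool.Agent.LR2 Pool.Agent.LR4

/-- Above a nice missing `X` most terms of its class are missing.
Proof: let `j ≤ m`, `j ∉ Bad`, `gcd (X, M - 1680 j) = 1` (at most `9/50 m + error` exceptions,
`gcd_count`, `small_prime`). `T0` with `y = 1680 j` gives `M - 1680 j - X ∈ V`. So if
`X + 1680 j ∈ V` then `j` is counted by `vv_count` with `z = X`. Total
`#Bad + 9/50 m + error + 9/50 m + L / 270`, `590 #Bad ≤ L`, `1/590 + 1/270 < 1/180`. -/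
theorem climb {n M : ℕ} {V : Finset ℕ} (H : Hyp n M V) {X m : ℕ} (hX : X ∉ V) (hN : Nice X)
    (hm : m ≤ Ln n) (h1 : 1680 * m + 5040 ≤ X) (h2 : X + 3360 * m + 6720 ≤ 2 * n)
    (h3 : M + 1680 ≤ 2 * n + X) :
    (((Icc 1 m).filter (fun j => X + 1680 * j ∈ V)).card : ℝ) ≤
      9 / 25 * m + (Ln n : ℝ) / 180 := by
  sorry

/-- Above a missing `X` most terms of its class are missing: version without niceness.
Same proof, with `rsum 7 X` instead of `9 / 50` in the coprimality count. -/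
theorem climb' {n M : ℕ} {V : Finset ℕ} (H : Hyp n M V) {X m : ℕ} (hX : X ∉ V)
    (hm : m ≤ Ln n) (h1 : 1680 * m + 5040 ≤ X) (h2 : X + 3360 * m + 6720 ≤ 2 * n)
    (h3 : M + 1680 ≤ 2 * n + X) :
    (((Icc 1 m).filter (fun j => X + 1680 * j ∈ V)).card : ℝ) ≤
      (rsum 7 X + 9 / 50) * m + (Ln n : ℝ) / 180 := by
  sorry

end Pool.Agent.LR5
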