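import Mathlib
import Pool.Agent.LR5.Defs

/-!
# LR5 / Cls : the formal consequences of the rules
-/

namespace Pool.Agent.LR5

/-- If `F` is not empty then all odd classes are in `LOW`.
Proof: `c := M - 2 c0 ∈ LOW` is odd. If `2 c ≡ M` mod `3` replace `c` by `M - 2 c ∈ LOW` (odd, and
`2 (M - 2 c) ≡ 2 M - 2 M = 0 ≢ M`). So `c ∈ LOW` is odd and `3 ∤ M - 2 c`. Now
`e = M - 2 c ∈ LOW` (A1). `CopC c e` (a common prime `p` divides `M`). `3 c = M + c - e ∈ F` (A2d).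
`CopC e (3 c)` (`p = 3` excluded). `-c = M - e - 3 c ∈ LOW` (A2s). `M + 2 c ∈ LOW` (A1 for `-c`).
`CopC (M - 2 c) (M + 2 c)` (both odd, `p ∣ 2 M`). `-M ∈ LOW` (A2s). `CopC (-M) e` for every `e`.
So `e ∈ F` implies `2 M - e ∈ LOW` (A2s) and `-e ∈ F` (A2d), hence `2 M + e ∈ LOW`. By induction
`(2 k - 1) M ∈ LOW` for all `k ≥ 0`, and these are all odd classes modulo `1680`. -/
theorem cls (M : ℤ) (h2 : Odd M) (h3 : ¬ (3 : ℤ) ∣ M) (h5 : ¬ (5 : ℤ) ∣ M) (h7 : ¬ (7 : ℤ) ∣ M)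
    (F Lw : ℤ → Prop) (hF : ∀ c d, c ≡ d [ZMOD 1680] → F c → F d)
    (hL : ∀ c d, c ≡ d [ZMOD 1680] → Lw c → Lw d) (hLF : ∀ c, Lw c → F c)
    (A1 : ∀ c, F c → Lw (M - 2 * c)) (A2s : ∀ c e, F c → F e → CopC c e → Lw (M - c - e))
    (A2d : ∀ c e, Lw c → F e → CopC c e → F (M + c - e)) (c0 : ℤ) (h0 : F c0) :
    ∀ d : ℤ, Odd d → Lw d := by
  sorry

end Pool.Agent.LR5
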