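import Pool.Agent.LR5.TB.TB001
import Pool.Agent.LR5.TB.TB002
import Pool.Agent.LR5.TB.TB003
import Pool.Agent.LR5.TB.TB004
import Pool.Agent.LR5.TB.TB005
import Pool.Agent.LR5.TB.TB006
import Pool.Agent.LR5.TB.TB007
import Pool.Agent.LR5.TB.TB008
import Pool.Agent.LR5.TB.TB009
import Pool.Agent.LR5.TB.TB010
import Pool.Agent.LR5.TB.TB011
import Pool.Agent.LR5.TB.TB012
import Pool.Agent.LR5.TB.TB013
import Pool.Agent.LR5.TB.TB014
import Pool.Agent.LR5.TB.TB015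
import Pool.Agent.LR5.TB.TB016
import Pool.Agent.LR5.TB.TB017
import Pool.Agent.LR5.TB.TB018
import Pool.Agent.LR5.TB.TB019
import Pool.Agent.LR5.TB.TB020
import Pool.Agent.LR5.TB.TB021
import Pool.Agent.LR5.TB.TB022
import Pool.Agent.LR5.TB.TB023
import Pool.Agent.LR5.TB.TB024
import Pool.Agent.LR5.TB.TB025
import Pool.Agent.LR5.TB.TB026
import Pool.Agent.LR5.TB.TB027
import Pool.Agent.LR5.TB.TB028
import Pool.Agent.LR5.TB.TB029
import Pool.Agent.LR5.TB.TB030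
import Pool.Agent.LR5.TB.TB031
import Pool.Agent.LR5.TB.TB032
import Pool.Agent.LR5.TB.TB033
import Pool.Agent.LR5.TB.TB034
import Pool.Agent.LR5.TB.TB035
import Pool.Agent.LR5.TB.TB036
import Pool.Agent.LR5.TB.TB037
import Pool.Agent.LR5.TB.TB038
import Pool.Agent.LR5.TB.TB039
import Pool.Agent.LR5.TB.TB040
import Pool.Agent.LR5.TB.TB041
import Pool.Agent.LR5.TB.TB042
import Pool.Agent.LR5.TB.TB043
import Pool.Agent.LR5.TB.TB044
import Pool.Agent.LR5.TB.TB045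
import Pool.Agent.LR5.TB.TB046
import Pool.Agent.LR5.TB.TB047
import Pool.Agent.LR5.TB.TB048
import Pool.Agent.LR5.TB.TB049
import Pool.Agent.LR5.TB.TB050
import Pool.Agent.LR5.TB.TB051
import Pool.Agent.LR5.TB.TB052
import Pool.Agent.LR5.TB.TB053
import Pool.Agent.LR5.TB.TB054
import Pool.Agent.LR5.TB.TB055
import Pool.Agent.LR5.TB.TB056
import Pool.Agent.LR5.TB.TB057
import Pool.Agent.LR5.TB.TB058
import Pool.Agent.LR5.TB.TB059
import Pool.Agent.LR5.TB.TB060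
import Pool.Agent.LR5.TB.TB061
import Pool.Agent.LR5.TB.TB062
import Pool.Agent.LR5.TB.TB063
import Pool.Agent.LR5.TB.TB064
import Pool.Agent.LR5.TB.TB065
import Pool.Agent.LR5.TB.TB066
import Pool.Agent.LR5.TB.TB067
import Pool.Agent.LR5.TB.TB068
import Pool.Agent.LR5.TB.TB069
import Pool.Agent.LR5.TB.TB070
import Pool.Agent.LR5.TB.TB071
import Pool.Agent.LR5.TB.TB072
import Pool.Agent.LR5.TB.TB073
import Pool.Agent.LR5.TB.TB074
import Pool.Agent.LR5.TB.TB075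
import Pool.Agent.LR5.TB.TB076
import Pool.Agent.LR5.TB.TB077
import Pool.Agent.LR5.TB.TB078
import Pool.Agent.LR5.TB.TB079
import Pool.Agent.LR5.TB.TB080
import Pool.Agent.LR5.TB.TB081

/-!
Lonely runner with speeds at most `2 n`: the table.
-/

namespace Pool.Agent.LR5

open Pool.Agent.LR4 Pool.Agent.LR4.TC

/-- The entries of the class `1`. -/
def TBJ1 : List Entry :=
  TB001 ++ (TB002 ++ (TB003 ++ (TB004 ++ (TB005 ++ (TB006 ++ (TB007 ++ (TB008 ++ (TB009 ++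
  (TB010)))))))))

theorem TBJ1_ok : ∀ e ∈ TBJ1, EOK2 ymk e :=
  eok2_app TB001_ok (eok2_app TB002_ok (eok2_app TB003_ok (eok2_app TB004_ok (eok2_app TB005_ok
    (eok2_app TB006_ok (eok2_app TB007_ok (eok2_app TB008_ok (eok2_app TB009_ok
    (TB010_ok)))))))))

theorem TBJ1_cov : cvb TBJ1 (needj J0 1) = true := by decide +kernel

/-- The entries of the class `3`. -/
def TBJ3 : List Entry :=
  TB010 ++ (TB011 ++ (TB012 ++ (TB013 ++ (TB014 ++ (TB015 ++ (TB016 ++ (TB017 ++ (TB018 ++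
  (TB019 ++ (TB020 ++ (TB021 ++ (TB022 ++ (TB023 ++ (TB024 ++ (TB025 ++ (TB026 ++ (TB027 ++
  (TB028 ++ (TB029 ++ (TB030 ++ (TB031 ++ (TB032 ++ (TB033 ++ (TB034 ++ (TB035 ++ (TB036 ++
  (TB037 ++ (TB038 ++ (TB039 ++ (TB040 ++ (TB041 ++ (TB042 ++ (TB043 ++ (TB044 ++ (TB045 ++
  (TB046 ++ (TB047 ++ (TB048 ++ (TB049 ++ (TB050 ++
  (TB051)))))))))))))))))))))))))))))))))))))))))

theorem TBJ3_ok : ∀ e ∈ TBJ3, EOK2 ymk e :=
  eok2_app TB010_ok (eok2_app TB011_ok (eok2_app TB012_ok (eok2_app TB013_ok (eok2_app TB014_ok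
    (eok2_app TB015_ok (eok2_app TB016_ok (eok2_app TB017_ok (eok2_app TB018_ok (eok2_app TB019_ok
    (eok2_app TB020_ok (eok2_app TB021_ok (eok2_app TB022_ok (eok2_app TB023_ok (eok2_app TB024_ok
    (eok2_app TB025_ok (eok2_app TB026_ok (eok2_app TB027_ok (eok2_app TB028_ok (eok2_app TB029_ok
    (eok2_app TB030_ok (eok2_app TB031_ok (eok2_app TB032_ok (eok2_app TB033_ok (eok2_app TB034_ok
    (eok2_app TB035_ok (eok2_app TB036_ok (eok2_app TB037_ok (eok2_app TB038_ok (eok2_app TB039_ok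
    (eok2_app TB040_ok (eok2_app TB041_ok (eok2_app TB042_ok (eok2_app TB043_ok (eok2_app TB044_ok
    (eok2_app TB045_ok (eok2_app TB046_ok (eok2_app TB047_ok (eok2_app TB048_ok (eok2_app TB049_ok
    (eok2_app TB050_ok (TB051_ok)))))))))))))))))))))))))))))))))))))))))

theorem TBJ3_cov : cvb TBJ3 (needj J0 3) = true := by decide +kernel

/-- The entries of the class `5`. -/
def TBJ5 : List Entry :=
  TB051 ++ (TB052 ++ (TB053 ++ (TB054 ++ (TB055 ++ (TB056 ++ (TB057 ++ (TB058 ++ (TB059 ++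
  (TB060 ++ (TB061 ++ (TB062 ++ (TB063 ++ (TB064)))))))))))))

theorem TBJ5_ok : ∀ e ∈ TBJ5, EOK2 ymk e :=
  eok2_app TB051_ok (eok2_app TB052_ok (eok2_app TB053_ok (eok2_app TB054_ok (eok2_app TB055_ok
    (eok2_app TB056_ok (eok2_app TB057_ok (eok2_app TB058_ok (eok2_app TB059_ok (eok2_app TB060_ok
    (eok2_app TB061_ok (eok2_app TB062_ok (eok2_app TB063_ok (TB064_ok)))))))))))))

theorem TBJ5_cov : cvb TBJ5 (needj J0 5) = true := by decide +kernel

/-- The entries of the class `7`. -/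
def TBJ7 : List Entry :=
  TB064 ++ (TB065 ++ (TB066 ++ (TB067 ++ (TB068 ++ (TB069 ++ (TB070 ++ (TB071 ++ (TB072 ++
  (TB073 ++ (TB074 ++ (TB075 ++ (TB076 ++ (TB077 ++ (TB078 ++ (TB079 ++ (TB080 ++
  (TB081)))))))))))))))))

theorem TBJ7_ok : ∀ e ∈ TBJ7, EOK2 ymk e :=
  eok2_app TB064_ok (eok2_app TB065_ok (eok2_app TB066_ok (eok2_app TB067_ok (eok2_app TB068_ok
    (eok2_app TB069_ok (eok2_app TB070_ok (eok2_app TB071_ok (eok2_app TB072_ok (eok2_app TB073_ok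
    (eok2_app TB074_ok (eok2_app TB075_ok (eok2_app TB076_ok (eok2_app TB077_ok (eok2_app TB078_ok
    (eok2_app TB079_ok (eok2_app TB080_ok (TB081_ok)))))))))))))))))

theorem TBJ7_cov : cvb TBJ7 (needj J0 7) = true := by decide +kernel

/-- All entries. -/
def TBL : List Entry := TBJ1 ++ (TBJ3 ++ (TBJ5 ++ TBJ7))

theorem TBL_ok : ∀ e ∈ TBL, EOK2 ymk e :=
  eok2_app TBJ1_ok (eok2_app TBJ3_ok (eok2_app TBJ5_ok TBJ7_ok))

theorem TBL_cov : ∀ j ∈ [1, 3, 5, 7], ∀ d ∈ needj J0 j, Cvd TBL d := by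
  intro j hj
  have h1 : TBJ1 ⊆ TBL := List.subset_append_left _ _
  have h3 : TBJ3 ⊆ TBL := fun e he =>
    List.mem_append_right _ (List.mem_append_left _ he)
  have h5 : TBJ5 ⊆ TBL := fun e he =>
    List.mem_append_right _ (List.mem_append_right _ (List.mem_append_left _ he))
  have h7 : TBJ7 ⊆ TBL := fun e he =>
    List.mem_append_right _ (List.mem_append_right _ (List.mem_append_right _ he))
  rcases List.mem_cons.1 hj with rfl | hj
  · exact cvd_of TBJ1_cov h1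
  rcases List.mem_cons.1 hj with rfl | hj
  · exact cvd_of TBJ3_cov h3
  rcases List.mem_cons.1 hj with rfl | hj
  · exact cvd_of TBJ5_cov h5
  rcases List.mem_cons.1 hj with rfl | hj
  · exact cvd_of TBJ7_cov h7
  · exact absurd hj List.not_mem_nil

/-- The table statement. -/
theorem tabAll2 : TabAll YS J0 := tabAll2_YS TBL_ok (cvd_all TBL_cov)

end Pool.Agent.LR5
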