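import Mathlib
import Pool.Agent.LR5.Climb

/-!
# LR5 / EW1 : if `F` is empty the missing speeds in `[n/20, 2n/3]` have many prime factors
-/

namespace Pool.Agent.LR5

open Finset Pool.Agent.LR2 Pool.Agent.LR4

/-- Proof: `m = n / 42000` (two fifths of `L`; `1680 m ≤ n / 25`). By `climb'` all but
`(rsum 7 X + 9/50) m + L/180` of the `X + 1680 j`, `j ≤ m`, are missing, and at most
`9/50 m + L/10^6` of them are not nice. If `rsum 7 X < 3/5` then
`(3/5 + 18/50) m + (1/180 + 10^(-6)) L < m` (`L ≤ 5/2 (m + 1)`), so some `X + 1680 j` is missing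
and nice; it is at most `2n/3 + n/25 < .84 n`: its class is occupied, contradiction. -/
theorem ew1 {n M : ℕ} {V : Finset ℕ} (H : Hyp n M V) (hF : ∀ c, ¬ Occ n V 84 c) {X : ℕ}
    (hX : X ∉ V) (h1 : n ≤ 20 * X) (h2 : 3 * X ≤ 2 * n) : 3 / 5 ≤ rsum 7 X := by
  sorry

end Pool.Agent.LR5
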