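import Mathlib
import Pool.Agent.LR2.Defs

/-!
# LR5 / Momx : explicit moments
-/

namespace Pool.Agent.LR5

open Finset Pool.Agent.LR2

/-- The weight `m / φ(m)` times `(1 + 5 / p) ^ 6` over the prime divisors `p > 7`. -/
noncomputable def wt (m : ℕ) : ℝ :=
  (∏ p ∈ m.primeFactors.filter (fun p : ℕ => 7 < p), (1 + 5 / (p : ℝ)) ^ 6) *
    ((m : ℝ) / m.totient)

/-- General moment inequality (proof as `LR2.MOM`). -/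
theorem mom_gen (g : ℕ → ℝ) (hg : ∀ p, p.Prime → 0 ≤ g p) (x : ℕ) :
    ∑ m ∈ Icc 1 x, ∏ p ∈ m.primeFactors, (1 + g p) ≤
      x * ∏ p ∈ (Icc 1 x).filter Nat.Prime, (1 + g p / p) := by
  sorry

/-- `∏ (1 + 1 / (p (p - 1))) ≤ 1.8812 * exp (1/10) ≤ 2.1`. -/
theorem phi_sum (x : ℕ) : ∑ m ∈ Icc 1 x, ((m : ℝ) / m.totient) ≤ 21 / 10 * x := by
  sorry

/-- `g p = (1 + 5/p)^6 p/(p-1) - 1` for `p > 7`, `g p = 1/(p-1)` for `p ≤ 7`. The product over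
`p ≤ 7` is `1.8812`; over `7 < p ≤ 97` it is `5.937`; for `p > 97`, `g p ≤ 36/p`, so the rest is at
most `exp (36/97) = 1.4494`. Total `16.19`. -/
theorem wt_sum (x : ℕ) : ∑ m ∈ Icc 1 x, wt m ≤ 17 * x := by
  sorry

/-- Even numbers: `m = 2 m'`, `wt m ≤ 2 * ∏_{p ∣ m', p > 2} (1 + g p)`; total
`(x/2) * 2 * 1.2542 * 5.937 * 1.4494 = 10.8 x`. -/
theorem wt_sum_even (x : ℕ) : ∑ m ∈ (Icc 1 x).filter (fun m => Even m), wt m ≤ 23 / 2 * x := by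
  sorry

/-- `∏ (1 + 5/p) ≥ 1 + 5 ∑ 1/p`. -/
theorem wt_ge {m : ℕ} {r : ℝ} (hm : 0 < m) (hr0 : 0 ≤ r) (hr : r ≤ rsum 7 m) :
    (1 + 5 * r) ^ 6 * ((m : ℝ) / m.totient) ≤ wt m := by
  sorry

end Pool.Agent.LR5
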