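import Mathlib
import Pool.Agent.LR2.Empty
import Pool.Agent.LR5.Momx
import Pool.Agent.LR4.Acct

/-!
# LR5 / EW2 : explicit version of `LR2.EMPTY`
-/

namespace Pool.Agent.LR5

open Finset Pool.Agent.LR2 Pool.Agent.LR4

/-- Error terms in the counting of units.
Proof: `LR2.sec_omega`: `4 ^ ω(m) m ≤ 30 φ(m) ^ 2`. -/
theorem small_err {n m : ℕ} (hn : 10 ^ 30 ≤ n) (hm : 0 < m) (hm2 : m ≤ 2 * n) :
    (2 : ℝ) ^ m.primeFactors.card + 2 ≤ (n : ℝ) / 10 ^ 6 * ((m.totient : ℝ) / m) := by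
  sorry

/-- Proof: `W` = complement in `[1, 2 n]`, `B = W.filter (3 x ≤ 2 n)`, `D` the defect set of
`LR2.Empty`: `#D = #B` (`empty_card`), `n + 1 ∈ D`. For `m ∈ B`:
(i) `m ≤ n/20`, `m` even: `u ∈ (n, 4n/3]` coprime to `m` (odd): `u` or `u + m` is in `D`, so
`(n/3) φ(m)/m - 2^ω - 1 ≤ 2 #D`. `m ≤ n/20` odd: `u = 2 v`, `v ∈ (n/2, 2n/3]` coprime to `m`:
`u` even in `D` or `u + m` odd in `D`, so `(n/6) φ(m)/m - 2^ω - 1 ≤ #D` (each element of `D`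
is used once). (ii) `m > n/20`: `(n/24) φ(m)/m - 2^ω - 1 ≤ #D` as in `LR2.Empty`. With
`small_err`: `1 ≤ (6.001 b / n) m/φ(m)` in case (i), and `1 ≤ (24.01 b / n) m/φ(m)`,
`4096 m/φ(m) ≤ wt m` (`wt_ge`, `r = 3/5`) in case (ii), `b = #B ≥ 1`. Sum over `B`:
`b ≤ (6.001 b/n) (21/10) (n/20) + (24.01 b/n) (17/4096) (2n/3 + 1) < b`. -/
theorem ew2 {n : ℕ} {V : Finset ℕ} (h : Cex n V) (hn : 10 ^ 30 ≤ n)
    (hr : ∀ X, X ∉ V → n ≤ 20 * X → 3 * X ≤ 2 * n → 3 / 5 ≤ rsum 7 X) : False := by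
  sorry

end Pool.Agent.LR5
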