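import Mathlib
import Pool.Agent.LR5.Bld2
import Pool.Agent.LR4.TabFct

/-!
Lonely runner with speeds at most `2 n`: the facts used by the fast table checker hold in a cell;
an accepted cell contains no speed.
-/

namespace Pool.Agent.LR5

open Pool.Agent.LR4 Pool.Agent.LR4.TC Finset

/-! ### The certificate of a cell -/

/-- The check of a pair. -/
def TT (md rho sm G w : ℕ) : Pr := fun f =>
  tw2 f G (512 * (800000 - G)) (G + w) (512 * (800000 - (G + w))) rho (md - 1)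
    (512 * (md + 1 - rho)) md sm

/-- The check of one code. -/
def UU (G w : ℕ) : Pr1 := fun f x =>
  one f x (x * G + 512 * (800000 - G)) (x * (G + w) + 512 * (800000 - (G + w)))

theorem fin_no {S : ℕ → Prop} {ct nv s tbl : ℕ} (hS : S (cd ct nv)) (hT : Tb S ct nv tbl)
    (h : fin nv (2 ^ nv) (2 ^ (nv + 1)) (2 ^ (2 * nv + 2)) s tbl = true) : False := by
  have e1 : Nat.add (Nat.succ nv) (Nat.succ nv) = 2 * nv + 2 := by
    change (nv + 1) + (nv + 1) = 2 * nv + 2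
    ring
  unfold fin at h
  rw [e1] at h
  have h' : prun tbl (2 * nv + 2) (2 ^ nv) (2 ^ (nv + 1)) (2 ^ (2 * nv + 2) - 1) s
    ((2 ^ (2 * nv + 2) - 1) - 2 ^ nv * 2 ^ (nv + 1)) (fun _ => true) = true := h
  have h1 := (prun_sd hS hT s _ _ h').2
  apply h1
  have e2 : (2 ^ (2 * nv + 2) - 1) - 2 ^ nv * 2 ^ (nv + 1) = 2 ^ (2 * nv + 1) - 1 := by
    have e3 : 2 ^ nv * 2 ^ (nv + 1) = 2 ^ (2 * nv + 1) := by
      rw [← pow_add]; congr 1; ring
    have e4 : 2 ^ (2 * nv + 2) = 2 * 2 ^ (2 * nv + 1) := by rw [pow_succ]; ring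
    rw [e3, e4]
    omega
  rw [e2]
  refine ⟨?_, ?_⟩
  · have e4 : 2 ^ (2 * nv + 2) = 2 * 2 ^ (2 * nv + 1) := by rw [pow_succ]; ring
    have e5 : 0 < 2 ^ (2 * nv + 1) := by positivity
    omega
  · intro b hb hN
    rw [Nat.testBit_two_pow_sub_one, decide_eq_false_iff_not] at hN
    right
    refine ⟨by omega, ?_⟩
    have e3 : b - (nv + 1) = nv := by omega
    rw [e3]
    exact hS

/-- A cell which is accepted: under the facts, `8 g` is not a speed. -/
theorem cell2_rs {md rho sm yy G w s : ℕ} {S : ℕ → Prop}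
    (hc : cell2 md rho sm yy G w s = true) (hf : TF2 (TT md rho sm G w) (UU G w) yy S) :
    G + w ≤ 800000 ∧ 1 ≤ w ∧ ¬ S 520 := by
  unfold cell2 at hc
  obtain ⟨h1, hc⟩ := an_and hc
  obtain ⟨h2, hc⟩ := an_and hc
  refine ⟨Nat.le_of_ble_eq_true h1, Nat.le_of_ble_eq_true h2, fun hS520 => ?_⟩
  simp only [force_eq] at hc
  unfold chk1 at hc
  have hc' : chk2 (TT md rho sm G w) (UU G w) yy s = true := hc
  unfold chk2 at hc'
  simp only [force_eq] at hc'
  obtain ⟨nv, hnv⟩ : ∃ nv, nv = Nat.land s 255 := ⟨_, rfl⟩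
  rw [← hnv] at hc'
  have e1 : Nat.shiftLeft 1 nv = 2 ^ nv := bt_eq nv
  have e2 : Nat.add (2 ^ nv) (2 ^ nv) = 2 ^ (nv + 1) := by
    change 2 ^ nv + 2 ^ nv = 2 ^ (nv + 1)
    rw [pow_succ]; ring
  have e3 : Nat.mul (2 ^ (nv + 1)) (2 ^ (nv + 1)) = 2 ^ (2 * nv + 2) := by
    change 2 ^ (nv + 1) * 2 ^ (nv + 1) = 2 ^ (2 * nv + 2)
    rw [← pow_add]; congr 1; ring
  rw [e1, e2, e3] at hc'
  obtain ⟨t, ht⟩ : ∃ t, t = Nat.mul 10 (Nat.succ nv) := ⟨_, rfl⟩
  rw [← ht] at hc'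
  obtain ⟨ct, hct⟩ : ∃ ct, ct = Nat.land (Nat.shiftRight s 8)
    (Nat.sub (Nat.shiftLeft 1 t) 1) := ⟨_, rfl⟩
  rw [← hct] at hc'
  unfold chk3 at hc'
  obtain ⟨h3, hc'⟩ := an_and hc'
  have h4 : cd ct nv = 520 := Nat.eq_of_beq_eq_true h3
  have hS : S (cd ct nv) := by rw [h4]; exact hS520
  obtain ⟨s2, tbl, hT, h5⟩ := bld_sd (S := S) (ct := ct) (nv := nv)
    (fun t i j k l K => cl_cr hf) _ _ _ _ Tb.zero hc'
  rw [force_eq] at h5
  exact fin_no hS hT h5

/-! ### Positions -/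

/-- A code with its positions. -/
structure P2 (g M G w c a b q : ℕ) (x : ℤ) : Prop where
  a2 : a < 800000
  b2 : b < 800000
  d0 : 0 < a → c ≠ 512
  ex : x = ((c : ℤ) - 512) * g - ((q : ℤ) - 512) * M
  e : (w : ℤ) * (800000 * x) =
    a * (((G : ℤ) + w) * M - 800000 * g) + b * (800000 * g - G * M)

theorem z0_eq {x : ℕ} {K : Bool} (h : z0 x K = true) : x = 0 ∧ K = true := by
  rcases x with _ | x
  · exact ⟨rfl, h⟩
  · exact Bool.noConfusion h

theorem o2_or {x y : Bool} (h : o2 x y = true) : x = true ∨ y = true := by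
  cases x
  · exact Or.inr h
  · exact Or.inl rfl

section

variable {n K M : ℕ} {V Y : Finset ℕ} {g u md rho sm yy G w : ℕ}
  (H : CH n K M V Y g u md rho sm yy G w)
include H

theorem mkP2 (c : ℕ) (hq : (c * G + 512 * (800000 - G)) / 800000 =
    (c * (G + w) + 512 * (800000 - (G + w))) / 800000) :
    P2 g M G w c ((c * G + 512 * (800000 - G)) % 800000)
      ((c * (G + w) + 512 * (800000 - (G + w))) % 800000)
      ((c * G + 512 * (800000 - G)) / 800000)
      (((c : ℤ) - 512) * g - ((((c * G + 512 * (800000 - G)) / 800000 : ℕ) : ℤ) - 512) * M) := by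
  have hG2 := H.hG2
  have g1 := Nat.div_add_mod (c * G + 512 * (800000 - G)) 800000
  have g2 := Nat.div_add_mod (c * (G + w) + 512 * (800000 - (G + w))) 800000
  rw [← hq] at g2
  have la := Nat.mod_lt (c * G + 512 * (800000 - G)) (show 0 < 800000 by norm_num)
  have lb := Nat.mod_lt (c * (G + w) + 512 * (800000 - (G + w))) (show 0 < 800000 by norm_num)
  obtain ⟨q, hq⟩ : ∃ q, q = (c * G + 512 * (800000 - G)) / 800000 := ⟨_, rfl⟩
  obtain ⟨a, ha⟩ : ∃ a, a = (c * G + 512 * (800000 - G)) % 800000 := ⟨_, rfl⟩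
  obtain ⟨b, hb⟩ : ∃ b, b = (c * (G + w) + 512 * (800000 - (G + w))) % 800000 := ⟨_, rfl⟩
  rw [← hq, ← ha] at g1
  rw [← hq, ← hb] at g2
  rw [← ha] at la
  rw [← hb] at lb
  have g1' : (800000 * (q : ℤ) + a) = c * G + 512 * (800000 - G) := by
    have : ((800000 * q + a : ℕ) : ℤ) = ((c * G + 512 * (800000 - G) : ℕ) : ℤ) := by rw [g1]
    push_cast [show G ≤ 800000 by omega] at this
    linarith
  have g2' : (800000 * (q : ℤ) + b) = c * (G + w) + 512 * (800000 - (G + w)) := by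
    have : ((800000 * q + b : ℕ) : ℤ) = ((c * (G + w) + 512 * (800000 - (G + w)) : ℕ) : ℤ) := by
      rw [g2]
    push_cast [hG2] at this
    linarith
  have hd0 : 0 < a → c ≠ 512 := by
    rintro h0 rfl
    have h8 : (512 * G + 512 * (800000 - G)) = 512 * 800000 := by omega
    rw [h8] at ha
    norm_num at ha
    omega
  rw [← hq, ← ha, ← hb]
  have ha' : (a : ℤ) = ((c : ℤ) - 512) * G - ((q : ℤ) - 512) * 800000 := by linarith
  have hb' : (b : ℤ) = ((c : ℤ) - 512) * (G + w) - ((q : ℤ) - 512) * 800000 := by linarith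
  refine ⟨la, lb, hd0, rfl, ?_⟩
  rw [ha', hb']
  ring

/-- Linear inequalities which hold at both ends of the cell. -/
theorem en2 {i a b q j c d r : ℕ} {x y : ℤ} (hx : P2 g M G w i a b q x)
    (hy : P2 g M G w j c d r y) (α β γ : ℤ) (h1 : 0 ≤ α * a + β * c + γ)
    (h2 : 0 ≤ α * b + β * d + γ) : 0 ≤ α * (800000 * x) + β * (800000 * y) + γ * M := by
  have hP : (0 : ℤ) ≤ ((G : ℤ) + w) * M - 800000 * g := by
    have : ((800000 * g : ℕ) : ℤ) ≤ (((G + w) * M : ℕ) : ℤ) := by exact_mod_cast H.hr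
    push_cast at this
    linarith
  have hQ : (0 : ℤ) ≤ 800000 * g - G * M := by
    have : ((G * M : ℕ) : ℤ) ≤ ((800000 * g : ℕ) : ℤ) := by exact_mod_cast H.hl
    push_cast at this
    linarith
  have hw : (0 : ℤ) < w := by exact_mod_cast H.hw
  have e1 := hx.e
  have e2 := hy.e
  obtain ⟨P, hP'⟩ : ∃ P : ℤ, P = ((G : ℤ) + w) * M - 800000 * g := ⟨_, rfl⟩
  obtain ⟨Q, hQ'⟩ : ∃ Q : ℤ, Q = 800000 * g - G * M := ⟨_, rfl⟩
  rw [← hP', ← hQ'] at e1 e2
  rw [← hP'] at hP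
  rw [← hQ'] at hQ
  have hPQ : P + Q = w * M := by rw [hP', hQ']; ring
  have key : (w : ℤ) * (α * (800000 * x) + β * (800000 * y) + γ * M) =
      (α * a + β * c + γ) * P + (α * b + β * d + γ) * Q := by
    linear_combination α * e1 + β * e2 - γ * hPQ
  have h3 : 0 ≤ (w : ℤ) * (α * (800000 * x) + β * (800000 * y) + γ * M) := by
    rw [key]
    exact add_nonneg (mul_nonneg h1 hP) (mul_nonneg h2 hQ)
  exact nonneg_of_mul_nonneg_right h3 hw

/-- The range of the positions. -/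
theorem rg2 {i a b q : ℕ} {x : ℤ} (hx : P2 g M G w i a b q x) : 0 ≤ x ∧ x < M := by
  have h1 := en2 H hx hx 1 0 0 (by omega) (by omega)
  have h2 := en2 H hx hx (-1) 0 799999 (by have := hx.a2; omega) (by have := hx.b2; omega)
  have hM := H.hM
  have hK3 := H.hK3
  constructor
  · linarith
  · have h3 : (0 : ℤ) < M := by omega
    linarith

theorem XX2 {i a b q : ℕ} {x : ℤ} (hx : P2 g M G w i a b q x) : (XX g M i : ℤ) = x :=
  XX_eq (rg2 H hx).1 (rg2 H hx).2 hx.ex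

/-- Coprimality with `M`. -/
theorem cM2 {i a b q : ℕ} {x : ℤ} (hx : P2 g M G w i a b q x) (ha : 0 < a) (h1 : 192 ≤ i)
    (h2 : i ≤ 832) : Nat.Coprime M (XX g M i) := by
  refine (Nat.coprime_of_dvd ?_)
  intro p hp h1 h2
  have h3 : (p : ℤ) ∣ x := by
    rw [← XX2 H hx]
    exact_mod_cast h2
  rw [hx.ex] at h3
  have h4 : (p : ℤ) ∣ M := by exact_mod_cast h1
  have h5 : (p : ℤ) ∣ ((i : ℤ) - 512) * g := by
    have := (Int.dvd_add_right (Dvd.dvd.mul_left h4 (-((q : ℤ) - 512)))).1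
      (show (p : ℤ) ∣ -((q : ℤ) - 512) * M + ((i : ℤ) - 512) * g by
        have e : -((q : ℤ) - 512) * M + ((i : ℤ) - 512) * g =
          ((i : ℤ) - 512) * g - ((q : ℤ) - 512) * M := by ring
        rw [e]; exact h3)
    exact this
  have hp' : Prime (p : ℤ) := Nat.prime_iff_prime_int.1 hp
  rcases hp'.dvd_or_dvd h5 with h6 | h6
  · have h7 := H.hpr p hp h1
    have h10 := hx.d0 ha
    have h11 := Int.eq_zero_of_abs_lt_dvd h6 (by rw [abs_lt]; constructor <;> omega)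
    omega
  · have h7 : p ∣ g := by exact_mod_cast h6
    have h8 := Nat.dvd_gcd h7 h1
    rw [H.hgc] at h8
    exact hp.one_lt.ne' (Nat.dvd_one.1 h8)

/-- Coprimality of two codes. -/
theorem cp2 {i a b q j c d r : ℕ} {x y : ℤ} (hx : P2 g M G w i a b q x)
    (hy : P2 g M G w j c d r y)
    (h : cop rho (md - 1) (512 * (md + 1 - rho)) md sm i q j r = true) :
    Nat.Coprime (XX g M i) (XX g M j) := by
  refine Nat.coprime_of_dvd ?_
  intro p hp hpi hpj
  have hp' : Prime (p : ℤ) := Nat.prime_iff_prime_int.1 hp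
  have hpx : (p : ℤ) ∣ x := by
    rw [← XX2 H hx]
    exact_mod_cast hpi
  have hpy : (p : ℤ) ∣ y := by
    rw [← XX2 H hy]
    exact_mod_cast hpj
  unfold cop at h
  obtain ⟨h2, h1⟩ := an_and h
  unfold cop2 cop3 at h1
  obtain ⟨P, hP⟩ : ∃ P, P = Nat.add (Nat.mul i r) (Nat.mul 512 (Nat.add j q)) := ⟨_, rfl⟩
  obtain ⟨N, hN⟩ : ∃ N, N = Nat.add (Nat.mul j q) (Nat.mul 512 (Nat.add i r)) := ⟨_, rfl⟩
  obtain ⟨D, hD⟩ : ∃ D, D = Nat.add (Nat.sub P N) (Nat.sub N P) := ⟨_, rfl⟩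
  rw [← hP, ← hN, ← hD] at h1
  have hP2 : (P : ℤ) = i * r + 512 * (j + q) := by
    have : P = i * r + 512 * (j + q) := hP
    rw [this]; push_cast; ring
  have hN2 : (N : ℤ) = j * q + 512 * (i + r) := by
    have : N = j * q + 512 * (i + r) := hN
    rw [this]; push_cast; ring
  have hD2 : D = (P - N) + (N - P) := hD
  obtain ⟨δ, hδ⟩ : ∃ δ : ℤ, δ = ((i : ℤ) - 512) * ((r : ℤ) - 512) -
    ((j : ℤ) - 512) * ((q : ℤ) - 512) := ⟨_, rfl⟩
  have hδ2 : δ = P - N := by rw [hδ, hP2, hN2]; ring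
  have hDδ : (D : ℤ) = δ ∨ (D : ℤ) = -δ := by omega
  have hgx : (p : ℤ) ∣ δ * M := by
    have e : δ * M = ((j : ℤ) - 512) * x - ((i : ℤ) - 512) * y := by
      rw [hx.ex, hy.ex, hδ]; ring
    rw [e]
    exact dvd_sub (Dvd.dvd.mul_left hpx _) (Dvd.dvd.mul_left hpy _)
  have hgy : (p : ℤ) ∣ δ * g := by
    have e : δ * g = ((r : ℤ) - 512) * x - ((q : ℤ) - 512) * y := by
      rw [hx.ex, hy.ex, hδ]; ring
    rw [e]
    exact dvd_sub (Dvd.dvd.mul_left hpx _) (Dvd.dvd.mul_left hpy _)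
  have hpδ : (p : ℤ) ∣ δ := by
    rcases hp'.dvd_or_dvd hgx with h3 | h3
    · exact h3
    · rcases hp'.dvd_or_dvd hgy with h4 | h4
      · exact h4
      · exfalso
        have h5 : p ∣ M := by exact_mod_cast h3
        have h6 : p ∣ g := by exact_mod_cast h4
        have h8 := Nat.dvd_gcd h6 h5
        rw [H.hgc] at h8
        exact hp.one_lt.ne' (Nat.dvd_one.1 h8)
  have hpD : p ∣ D := by
    have : (p : ℤ) ∣ D := by
      rcases hDδ with h3 | h3
      · rw [h3]; exact hpδ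
      · rw [h3]; exact hpδ.neg_right
    exact_mod_cast this
  have hDsm : D ∣ sm := Nat.dvd_of_mod_eq_zero (Nat.eq_of_beq_eq_true h1)
  have hpmd : p ∣ md := H.hsm p hp (hpD.trans hDsm)
  have hpM : ¬ (p : ℤ) ∣ M := by
    intro h3
    have h5 : p ∣ M := by exact_mod_cast h3
    have h8 := Nat.dvd_gcd hpmd h5
    rw [H.hmdM] at h8
    exact hp.one_lt.ne' (Nat.dvd_one.1 h8)
  have hee : ∀ (i q : ℕ) (x : ℤ), x = ((i : ℤ) - 512) * g - ((q : ℤ) - 512) * M →
      (p : ℤ) ∣ x → p ∣ LR5.ee rho (md - 1) (512 * (md + 1 - rho)) md i q := by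
    intro i q x hx hpx
    have h3 : LR5.ee rho (md - 1) (512 * (md + 1 - rho)) md i q =
      (i * rho + (md - 1) * q + 512 * (md + 1 - rho)) % md := rfl
    rw [h3, Nat.dvd_mod_iff hpmd]
    have h4 : ((i * rho + (md - 1) * q + 512 * (md + 1 - rho) : ℕ) : ℤ) =
        (((i : ℤ) - 512) * rho - ((q : ℤ) - 512)) + md * (q + 512) := by
      have := H.hmd0
      have := H.hrho
      push_cast [show 1 ≤ md by omega, show rho ≤ md + 1 by omega]
      ring
    have h5 : (p : ℤ) ∣ (((i : ℤ) - 512) * rho - ((q : ℤ) - 512)) * M := by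
      have h6 : (md : ℤ) ∣ (g : ℤ) - rho * M := by
        have := H.hrm
        have h7 : ((g : ℕ) : ℤ) % (md : ℤ) = ((rho * M : ℕ) : ℤ) % (md : ℤ) := by
          exact_mod_cast this
        have h9 := Int.ModEq.dvd (show (rho * M : ℕ) ≡ (g : ℤ) [ZMOD md] from h7.symm)
        push_cast at h9
        exact h9
      have h7 : (p : ℤ) ∣ (g : ℤ) - rho * M := (Int.natCast_dvd_natCast.2 hpmd).trans h6
      have e : (((i : ℤ) - 512) * rho - ((q : ℤ) - 512)) * M =
          x - ((i : ℤ) - 512) * ((g : ℤ) - rho * M) := by rw [hx]; ring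
      rw [e]
      exact dvd_sub hpx (Dvd.dvd.mul_left h7 _)
    have h6 : (p : ℤ) ∣ (((i : ℤ) - 512) * rho - ((q : ℤ) - 512)) := by
      rcases hp'.dvd_or_dvd h5 with h7 | h7
      · exact h7
      · exact absurd h7 hpM
    have h7 : (p : ℤ) ∣ ((i * rho + (md - 1) * q + 512 * (md + 1 - rho) : ℕ) : ℤ) := by
      rw [h4]
      exact dvd_add h6 (Dvd.dvd.mul_right (Int.natCast_dvd_natCast.2 hpmd) _)
    exact_mod_cast h7
  have h3 := hee i q x hx.ex hpx
  have h4 := hee j r y hy.ex hpy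
  have h5 := Nat.dvd_gcd (Nat.dvd_gcd h3 h4) hpmd
  have h6 : Nat.gcd (Nat.gcd (LR5.ee rho (md - 1) (512 * (md + 1 - rho)) md i q)
    (LR5.ee rho (md - 1) (512 * (md + 1 - rho)) md j r)) md = 1 := Nat.eq_of_beq_eq_true h2
  rw [h6] at h5
  exact hp.one_lt.ne' (Nat.dvd_one.1 h5)

/-- The check of a pair. -/
theorem TT_spec {f : ℕ → ℕ → ℕ → ℕ → Bool} {i j : ℕ} (h : TT md rho sm G w f i j = true) :
    ∃ (a b q c d r : ℕ) (x y : ℤ), f a b c d = true ∧ P2 g M G w i a b q x ∧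
      P2 g M G w j c d r y ∧ Nat.Coprime (XX g M i) (XX g M j) := by
  unfold TT tw2 two at h
  obtain ⟨h1, h⟩ := an_and h
  unfold qc at h
  obtain ⟨h2, h⟩ := an_and h
  obtain ⟨h3, h4⟩ := an_and h
  have hx := mkP2 H i (Nat.eq_of_beq_eq_true h2)
  have hy := mkP2 H j (Nat.eq_of_beq_eq_true h3)
  exact ⟨_, _, _, _, _, _, _, _, h1, hx, hy, cp2 H hx hy h4⟩

/-- The check of one code. -/
theorem UU_spec {f : ℕ → ℕ → Bool} {i : ℕ} (h : UU G w f i = true) :
    ∃ (a b q : ℕ) (x : ℤ), f a b = true ∧ P2 g M G w i a b q x ∧ 256 ≤ i ∧ i ≤ 832 := by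
  unfold UU one at h
  obtain ⟨h1, h⟩ := an_and h
  obtain ⟨h2, h3⟩ := an_and h
  have hx := mkP2 H i (Nat.eq_of_beq_eq_true h2)
  have h4 : (256 - i) + (i - 832) = 0 := (z0_eq h3).1
  exact ⟨_, _, _, _, h1, hx, by omega, by omega⟩

omit H in
/-- A linear combination of two codes. -/
theorem XL {i a b q j c d r e : ℕ} {x y : ℤ} (hx : P2 g M G w i a b q x)
    (hy : P2 g M G w j c d r y) (α β : ℤ) (he : (e : ℤ) - 512 = α * ((i : ℤ) - 512) +
      β * ((j : ℤ) - 512)) (h0 : 0 ≤ α * x + β * y) (h1 : α * x + β * y < M) :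
    (XX g M e : ℤ) = α * x + β * y := by
  refine XX_eq (k := α * ((q : ℤ) - 512) + β * ((r : ℤ) - 512)) h0 h1 ?_
  rw [he, hx.ex, hy.ex]
  ring

theorem g_tri (i j z : ℕ) (h : TT md rho sm G w LR5.tri i j = true) (hz : z + 512 = i + j)
    (hi : XX g M i ∉ V) (hj : XX g M j ∉ V) : XX g M z ∈ V := by
  obtain ⟨a, b, q, c, d, r, x, y, h, hx, hy, hc⟩ := TT_spec H h
  unfold LR5.tri triA at h
  obtain ⟨h1, h2⟩ := z0_eq h
  have h1' : (((1143 - a) + (1143 - b)) + ((a - c) + (b - d))) +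
    ((((a + c) - 798857) + ((b + d) - 798857)) +
      ((800000 - ((a + c) + c)) + (800000 - ((b + d) + d)))) = 0 := h1
  have rx := rg2 H hx
  have ry := rg2 H hy
  have hK3 := H.hK3
  have hM := H.hM
  have hMz : (M : ℤ) = 2 * n + K := by exact_mod_cast hM
  have hK : (700 : ℤ) * K ≤ M := by exact_mod_cast H.hK
  have k1 := en2 H hx hy 1 0 (-1143) (by omega) (by omega)
  have k2 := en2 H hx hy (-1) 1 0 (by omega) (by omega)
  have k6 := en2 H hx hy (-1) (-1) 798857 (by omega) (by omega)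
  have k8 := en2 H hx hy 1 2 (-800000) (by omega) (by omega)
  have hXi := XX2 H hx
  have hXj := XX2 H hy
  have hXz : (XX g M z : ℤ) = 1 * x + 1 * y :=
    XL hx hy 1 1 (by omega) (by omega) (by omega)
  have hs : XX g M z = XX g M i + XX g M j := by omega
  have hne : XX g M i ≠ XX g M j := by
    intro h12
    rw [h12, Nat.coprime_self] at hc
    omega
  have h3 : (XX g M j ≤ n ∧ 2 * n < XX g M i + 2 * XX g M j) ∨ (n < XX g M j ∧
      (2 * n < 2 * XX g M i + XX g M j ∨ XX g M i + 2 * XX g M j ≤ 3 * n + 3)) := by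
    unfold triB at h2
    rcases o2_or h2 with h4 | h2
    · have g10 : ((c + c) - 798857) + ((d + d) - 798857) = 0 := Nat.eq_of_beq_eq_true h4
      have k10 := en2 H hx hy 0 (-2) 798857 (by omega) (by omega)
      left
      constructor <;> omega
    · rcases o2_or h2 with h5 | h2
      · have g10 : (800000 - ((a + a) + c)) + (800000 - ((b + b) + d)) = 0 :=
          Nat.eq_of_beq_eq_true h5
        have k10 := en2 H hx hy 2 1 (-800000) (by omega) (by omega)
        omega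
      · have g10 : (((a + a) + 4 * c) - 2396571) + (((b + b) + 4 * d) - 2396571) = 0 :=
          (z0_eq h2).1
        have k10 := en2 H hx hy (-2) (-4) 2396571 (by omega) (by omega)
        omega
  rw [hs]
  exact H.cex.tri (by omega) (by omega) hc (by omega) (by omega) h3 hi hj

theorem g_t4 (i j z u : ℕ) (h : TT md rho sm G w LR5.t4 i j = true) (hz : z + 512 = i + j)
    (hu : u + 1024 = i + i + j) (hi : XX g M i ∉ V) (hj : XX g M j ∉ V)
    (hzV : XX g M z ∉ V) : XX g M u ∈ V := by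
  obtain ⟨a, b, q, c, d, r, x, y, h, hx, hy, hc⟩ := TT_spec H h
  unfold LR5.t4 at h
  have h1 : (((1143 - a) + (1143 - b)) + ((1143 - c) + (1143 - d))) +
    (((((a + a) + c) - 798857) + (((b + b) + d) - 798857)) +
      ((800000 - (a + (c + c))) + (800000 - (b + (d + d))))) = 0 := (z0_eq h).1
  have rx := rg2 H hx
  have ry := rg2 H hy
  have hK3 := H.hK3
  have hM := H.hM
  have hMz : (M : ℤ) = 2 * n + K := by exact_mod_cast hM
  have hK : (700 : ℤ) * K ≤ M := by exact_mod_cast H.hK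
  have k1 := en2 H hx hy 1 0 (-1143) (by omega) (by omega)
  have k2 := en2 H hx hy 0 1 (-1143) (by omega) (by omega)
  have k5 := en2 H hx hy 1 2 (-800000) (by omega) (by omega)
  have k7 := en2 H hx hy (-2) (-1) 798857 (by omega) (by omega)
  have hXi := XX2 H hx
  have hXj := XX2 H hy
  have hXz : (XX g M z : ℤ) = 1 * x + 1 * y :=
    XL hx hy 1 1 (by omega) (by omega) (by omega)
  have hXu : (XX g M u : ℤ) = 2 * x + 1 * y :=
    XL hx hy 2 1 (by omega) (by omega) (by omega)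
  have hs : XX g M z = XX g M i + XX g M j := by omega
  have hs2 : XX g M u = 2 * XX g M i + XX g M j := by omega
  rw [hs] at hzV
  rw [hs2]
  exact H.cex.T4 (by omega) (by omega) hc (by omega) (by omega) (by omega) hi hj hzV

theorem X2c {i a b q z : ℕ} {x : ℤ} (hx : P2 g M G w i a b q x) (hz : z + 512 = i + i)
    (h1 : 2 * x < M) : XX g M z = 2 * XX g M i := by
  have rx := rg2 H hx
  have hXi := XX2 H hx
  have hX2 : (XX g M z : ℤ) = 2 * x + 0 * x := XL hx hx 2 0 (by omega) (by omega) (by omega)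
  omega

theorem g_db (i z : ℕ) (h : UU G w LR5.db i = true) (hz : z + 512 = i + i)
    (hi : XX g M i ∉ V) : XX g M z ∈ V := by
  obtain ⟨a, b, q, x, h, hx, hi1, hi2⟩ := UU_spec H h
  unfold LR5.db at h
  obtain ⟨h1, h2⟩ := z0_eq h
  have h1' : (1143 - a) + (1143 - b) = 0 := h1
  have rx := rg2 H hx
  have hK3 := H.hK3
  have hM := H.hM
  have hMz : (M : ℤ) = 2 * n + K := by exact_mod_cast hM
  have hK : (700 : ℤ) * K ≤ M := by exact_mod_cast H.hK
  have k1 := en2 H hx hx 1 0 (-1143) (by omega) (by omega)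
  have hXi := XX2 H hx
  rcases o2_or h2 with h4 | h2
  · have g4 : (4 * a - 796571) + (4 * b - 796571) = 0 := Nat.eq_of_beq_eq_true h4
    have k2 := en2 H hx hx (-4) 0 796571 (by omega) (by omega)
    rw [X2c H hx hz (by omega)]
    refine H.cex.dbl (z := M) (by omega) (cM2 H hx (by omega) (by omega) hi2) (by omega)
      (by omega) hi
  · have g4 : ((800000 - 3 * a) + (800000 - 3 * b)) +
      (((a + a) - 798857) + ((b + b) - 798857)) = 0 := (z0_eq h2).1
    have k2 := en2 H hx hx 3 0 (-800000) (by omega) (by omega)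
    have k4 := en2 H hx hx (-2) 0 798857 (by omega) (by omega)
    rw [X2c H hx hz (by omega)]
    exact H.cex.dblHigh (by omega) (by omega) hi

theorem g_d2 (i j z : ℕ) (h : TT md rho sm G w LR5.d2 i j = true) (hz : z + 512 = i + i)
    (hi : XX g M i ∉ V) (hzV : XX g M z ∉ V) : XX g M j ∈ V := by
  obtain ⟨a, b, q, c, d, r, x, y, h, hx, hy, hc⟩ := TT_spec H h
  unfold LR5.d2 at h
  have h1 : (((1143 - a) + (1143 - b)) + (((a + a) - 798857) + ((b + b) - 798857))) +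
    (((800000 - (a + c)) + (800000 - (b + d))) +
      (((4 * a + (c + c)) - 2396571) + ((4 * b + (d + d)) - 2396571))) = 0 := (z0_eq h).1
  have rx := rg2 H hx
  have ry := rg2 H hy
  have hK3 := H.hK3
  have hM := H.hM
  have hMz : (M : ℤ) = 2 * n + K := by exact_mod_cast hM
  have hK : (700 : ℤ) * K ≤ M := by exact_mod_cast H.hK
  have k1 := en2 H hx hy 1 0 (-1143) (by omega) (by omega)
  have k2 := en2 H hx hy 1 1 (-800000) (by omega) (by omega)
  have k4 := en2 H hx hy (-4) (-2) 2396571 (by omega) (by omega)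
  have k6 := en2 H hx hy (-2) 0 798857 (by omega) (by omega)
  have hXi := XX2 H hx
  have hXj := XX2 H hy
  rw [X2c H hx hz (by omega)] at hzV
  exact H.cex.D2 (by omega) (by omega) hc.symm (by omega) (by omega) hi hzV

theorem g_d3 (i z u : ℕ) (h : UU G w LR5.d3 i = true) (hz : z + 512 = i + i)
    (hu : u + 1024 = i + i + i) (hi : XX g M i ∉ V) (hzV : XX g M z ∉ V) : XX g M u ∈ V := by
  obtain ⟨a, b, q, x, h, hx, hi1, hi2⟩ := UU_spec H h
  unfold LR5.d3 at h
  have h1 : ((1143 - a) + (1143 - b)) + ((3 * a - 797714) + (3 * b - 797714)) = 0 :=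
    (z0_eq h).1
  have rx := rg2 H hx
  have hK3 := H.hK3
  have hM := H.hM
  have hMz : (M : ℤ) = 2 * n + K := by exact_mod_cast hM
  have hK : (700 : ℤ) * K ≤ M := by exact_mod_cast H.hK
  have k1 := en2 H hx hx 1 0 (-1143) (by omega) (by omega)
  have k2 := en2 H hx hx (-3) 0 797714 (by omega) (by omega)
  have hXi := XX2 H hx
  have hX3 : (XX g M u : ℤ) = 3 * x + 0 * x := XL hx hx 3 0 (by omega) (by omega) (by omega)
  have hs : XX g M u = 3 * XX g M i := by omega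
  rw [X2c H hx hz (by omega)] at hzV
  rw [hs]
  exact H.cex.D3 (z := M) (by omega) (cM2 H hx (by omega) (by omega) hi2) (by omega) (by omega)
    hi hzV

theorem g_lb (x z u : ℕ) (h : tb yy ((x - 512) + (512 - x)) = true) (hz : z + 512 = x + x)
    (hu : u + (x + x) = 1536) (h2 : XX g M z ∈ V) (h3 : XX g M u ∈ V) : XX g M x ∉ V := by
  obtain ⟨_, hb1, hb2⟩ := H.hyy _ h
  have e1 : c2 x = z := by
    have : c2 x = x + x - 512 := rfl
    omega
  have e2 : c2 (cn x) = u := by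
    have h4 : cn x = 1024 - x := rfl
    have : c2 (cn x) = cn x + cn x - 512 := rfl
    omega
  refine (f_lb H x h ?_ ?_).1
  · rw [e1]; exact h2
  · rw [e2]; exact h3

/-- **The facts of the checker hold in a cell.** -/
theorem tf2_of : TF2 (TT md rho sm G w) (UU G w) yy (fun c => XX g M c ∈ V) where
  tri x y z h h1 h2 h3 := g_tri H x y z h h1 h2 h3
  d2 x y z h h1 h2 h3 := g_d2 H x y z h h1 h2 h3
  t4 x y z u h h1 h2 h3 h4 h5 := g_t4 H x y z u h h1 h2 h3 h4 h5
  db x z h h1 h2 := g_db H x z h h1 h2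
  d3 x z u h h1 h2 h3 h4 := g_d3 H x z u h h1 h2 h3 h4
  lb x z u h h1 h2 h3 h4 := g_lb H x z u h h1 h2 h3 h4

end

/-- An accepted cell: `u = 8 g` is not a speed. -/
theorem cell2_no {n K M : ℕ} {V Y : Finset ℕ} {g u md rho sm yy G w s : ℕ}
    (hc : cell2 md rho sm yy G w s = true) (hcex : Cex n V) (hM : M = 2 * n + K) (hK3 : 3 ≤ K)
    (hK : 700 * K ≤ M) (hpr : ∀ p : ℕ, p.Prime → p ∣ M → 320 < p) (hodd : Odd M)
    (hgc : Nat.Coprime g M) (hgu : (8 * g) % M = u % M) (hu : u < M) (huV : u ∈ V)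
    (hno : ¬ ∃ b ∈ Y, ∃ X ∈ labL M V, (8 * X) % M = (b * u) % M ∨ (8 * X + b * u) % M = 0)
    (hyy : ∀ b, tb yy b = true → b ∈ Y ∧ 1 ≤ b ∧ b ≤ 256) (hmd0 : 0 < md) (hrho : rho ≤ md + 1)
    (hsm : ∀ p : ℕ, p.Prime → p ∣ sm → p ∣ md) (hmdM : Nat.Coprime md M)
    (hrm : g % md = (rho * M) % md) (hl : G * M ≤ 800000 * g) (hr : 800000 * g ≤ (G + w) * M) :
    False := by
  have h1 : G + w ≤ 800000 ∧ 1 ≤ w := by
    unfold cell2 at hc
    obtain ⟨h1, hc⟩ := an_and hc
    obtain ⟨h2, hc⟩ := an_and hc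
    exact ⟨Nat.le_of_ble_eq_true h1, Nat.le_of_ble_eq_true h2⟩
  have H : CH n K M V Y g u md rho sm yy G w := ⟨hcex, hM, hK3, hK, hpr, hodd, hgc, hgu, hno, hyy,
    hmd0, hrho, hsm, hmdM, hrm, h1.1, h1.2, hl, hr⟩
  have h2 := (cell2_rs hc (tf2_of H)).2.2
  apply h2
  rw [XX_u H hu]
  exact huV

end Pool.Agent.LR5
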