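import Mathlib
import Pool.Agent.LR5.Climb

/-!
# LR5 / Gap : nice missing speeds everywhere above a nice missing speed of the class
-/

namespace Pool.Agent.LR5

open Finset Pool.Agent.LR2 Pool.Agent.LR4

/-- Proof: let `X` be the largest nice missing number of the class in `[X0, z]`, `m0 = n / 672000`.
If `X + 1680 m0 ≤ z` then `climb` with `m := m0` (`1680 m0 + 5040 ≤ X` since `X ≥ n / 20`,
`X + 3360 m0 + 6720 ≤ 2 n` since `X ≤ z ≤ 1.99 n`, `3360 m0 ≤ n / 200`) and `nn_count` give some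
`j ≤ m0` with `X + 1680 j` missing and nice (`9/25 m0 + L/180 + 9/50 m0 + L/10^6 < m0`, as
`L ≤ 40 m0 + 40`): contradiction. -/
theorem gap {n M : ℕ} {V : Finset ℕ} (H : Hyp n M V) {X0 z : ℕ} (hX0 : X0 ∉ V) (hN : Nice X0)
    (h1 : n ≤ 20 * X0) (h2 : X0 ≤ z) (h3 : 100 * z ≤ 199 * n) :
    ∃ X, X ∉ V ∧ Nice X ∧ X ≡ X0 [MOD 1680] ∧ X0 ≤ X ∧ X ≤ z ∧
      z < X + 1680 * (n / 672000) := by
  sorry

/-- Number of terms of the windows with arbitrary start. -/
def Tn (n : ℕ) : ℕ := Ln n - n / 672000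

/-- Density of the missing speeds in arbitrary windows.
Proof: take `X` from `gap`, `z = X + 1680 i` with `i < n / 672000`; `j ↦ i + j` maps the set
injectively into the set of `climb` with `m := Ln n` (here `X > z - n / 400 ≥ n / 10 + 5040`,
`X + 3360 Ln n ≤ 1.79 n + .2 n`). -/
theorem dens {n M : ℕ} {V : Finset ℕ} (H : Hyp n M V) {X0 z : ℕ} (hX0 : X0 ∉ V) (hN : Nice X0)
    (h1 : n ≤ 20 * X0) (h2 : X0 ≤ z) (h3 : 11 * n ≤ 100 * z) (h4 : 100 * z ≤ 179 * n)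
    (hc : z ≡ X0 [MOD 1680]) :
    (((Icc 1 (Tn n)).filter (fun j => z + 1680 * j ∈ V)).card : ℝ) ≤
      (9 / 25 + 1 / 180) * (Ln n : ℝ) := by
  sorry

end Pool.Agent.LR5
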