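import Mathlib
import Pool.Agent.LR5.Gap

/-!
# LR5 / OW1 : if all odd classes are occupied, even missing speeds have many prime factors
-/

namespace Pool.Agent.LR5

open Finset Pool.Agent.LR2 Pool.Agent.LR4

/-- Proof: suppose `rsum 7 e < 6/25`, `T = Tn n`. Choose `z ≡ 1` mod `1680` in `[a, a + 1680)` and
`x_j = z + 1680 j`, `1 ≤ j ≤ T` (so `a ≤ x_j ≤ a + n/10`; `x_j` is coprime to `210`), and the
partner `x_j'` as follows.
(a) `e ≤ 2n/3`: `a = n`, partner `x + e`. (b) `2n/3 < e ≤ n`: `a = 7n/10`, partner `x + e`.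
(c) `n < e ≤ 4n/3`: `a = 4n/10`, partner `x + e`. (d) `4n/3 < e ≤ 2n`: `a = n/2`, partner `e - x`
(`e - x_j = z'' + 1680 (T + 1 - j)`, `z'' = e - z - 1680 (T + 1)`).
`dens` for `z` (class 1) and for `z + e`, resp. `z''` (odd class): in both windows at most
`(9/25 + 1/180) L` terms are in `V`; at most `6/25 T + L/10^6` of the `x_j` are not coprime to `e`
(`gcd_count`). As `L ≤ 40/39 (T + 1)` the sum is `< T`. So for some `j` both `x_j` and the partner
are missing and `gcd (x_j, e) = 1`. `Cex.tri` for `{x, e, x + e}`, resp. `{x, e - x, e}`: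
contradiction. Side conditions: (a) `e < x`, `x > n`, `e + 2 x ≤ 3 n`. (b) `x < e`: `e ≤ n`,
`x + 2 e > 2 n`; `e < x ≤ n`: `e + 2 x > 2 n`. (c) `x < e`, `e > n`: `x + 2 e ≤ 3 n` if
`e ≤ 6n/5`, `2 x + e > 2 n` otherwise. (d) `x < e - x`; `e - x ≤ n`: `x + 2 (e - x) > 2 n`;
`e - x > n`: `e > 3n/2` and `2 x + (e - x) = x + e > 2 n`. -/
theorem ow1 {n M : ℕ} {V : Finset ℕ} (H : Hyp n M V) (hO : ∀ d : ℤ, Odd d → Occ n V 30 d) {e : ℕ}
    (he : Even e) (he0 : 0 < e) (he2 : e ≤ 2 * n) (heV : e ∉ V) : 6 / 25 ≤ rsum 7 e := by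
  sorry

end Pool.Agent.LR5
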