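import Mathlib
import Pool.Agent.LR2.Odd
import Pool.Agent.LR5.EW2

/-!
# LR5 / OW2 : explicit version of `LR2.ODD`
-/

namespace Pool.Agent.LR5

open Finset Pool.Agent.LR2 Pool.Agent.LR4

/-- Proof: `E` = even missing speeds, `b = #E = #{odd speeds} ≥ 1` (`LR2.ODD_eq`, `1 ∈ V`). For
`e ∈ E` there is an interval `(a, b']` of length at least `n/2 - 1` such that for every `x` in it
coprime to `e` one of `x` and its partner (both odd, in `[1, 2n]`) is a speed, so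
`(n/2 - 1) φ(e)/e - 2^ω(e) ≤ 2 b` (`ODD_bound` with better constants):
`e ≤ 2n/3`: `x ∈ (n - e/2, 3n/2 - e/2]`, partner `x + e`; `2n/3 < e ≤ n`: `x ∈ (2n - 2e, 5n/2 - 2e]`,
partner `x + e`; `n < e ≤ 4n/3`: `x ∈ (0, n/2]`, partner `x + e`; `4n/3 < e ≤ 3n/2`:
`x ∈ (0, n/2]`, partner `e - x`; `3n/2 < e ≤ 5n/3`: `x ∈ (2e - 3n, 2e - 5n/2]`, partner `e - x`;
`5n/3 < e ≤ 2n`: `x ∈ (2n - e, 5n/2 - e]`, partner `e - x` (in the last three cases `2 x ≤ e`,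
and `2 x ≠ e` by coprimality). So `1 ≤ (4.001 b/n) e/φ(e)` (`small_err`), and
`(11/5)^6 e/φ(e) ≤ wt e` (`wt_ge`, `r = 6/25`). Sum over `E`:
`b ≤ (4.001 b/n) (23/2) (2n) / 113.37 < b`. -/
theorem ow2 {n : ℕ} {V : Finset ℕ} (h : Cex n V) (hn : 10 ^ 30 ≤ n)
    (hr : ∀ e, Even e → 0 < e → e ≤ 2 * n → e ∉ V → 6 / 25 ≤ rsum 7 e) : False := by
  sorry

end Pool.Agent.LR5
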