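import Mathlib
import Pool.Agent.LR5.Gap

/-!
# LR5 / RuleA1 : `c ∈ F` implies `M - 2 c ∈ LOW`
-/

namespace Pool.Agent.LR5

open Finset Pool.Agent.LR2 Pool.Agent.LR4

/-- Proof: `gap` with `z = 86 n / 100` gives a nice missing `X`, `X > .8574 n`, `X ≤ .86 n`, of the
class of `c`; `L = Ln n`, `x_j = X + 1680 j ≤ .96 n`, `1 ≤ j ≤ L`. By `climb` (`m := L`) all but
`(9/25 + 1/180) L` of the `x_j` are missing; then `2 x_j ∈ V` (`Cex.dblHigh`). If also
`M - 2 x_j ∈ V` then `x_j ∈ Lost` (at most `L / 4000`) or `x_j`, `M - x_j` are both missing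
(at most `9/50 L + L / 580`, `bb_count` with `x0 = X`). At most `9/50 L + L/10^6` of the numbers
`M - 2 x_j` are not nice (`nn_count`, step `-3360`). Sum `< L`, so some `M - 2 x_j` is missing and
nice; it lies in `[.08 n, .29 n]`. -/
theorem ruleA1 {n M : ℕ} {V : Finset ℕ} (H : Hyp n M V) {c : ℤ} (hc : Occ n V 84 c) :
    Occ n V 30 ((M : ℤ) - 2 * c) := by
  sorry

end Pool.Agent.LR5
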