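import Mathlib
import Pool.Agent.LR5.Gap

/-!
# LR5 / RuleA2 : `c, e ∈ F` coprimable implies `M - c - e ∈ LOW`
-/

namespace Pool.Agent.LR5

open Finset Pool.Agent.LR2 Pool.Agent.LR4

/-- Proof: `gap` with `z = 87 n / 100` gives nice missing `X`, `Y ∈ (.8674 n, .87 n]` in the classes
of `c`, `e`. Let `L = Ln n`, `y_j = Y + 1680 j ≤ .97 n`. The following sets of `j ≤ L` are small:
`y_j ∈ V` (`climb`: `(9/25 + 1/180) L`); `gcd (X, y_j) > 1` (`gcd_count`, `CopC`, `X` nice: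
`9/50 L + L/10^6`); `X + y_j ∈ V` and `M - X - y_j ∈ V` (`vv_count` with `z = X + Y ≤ 1.74 n`:
`9/50 L + L/270`); `M - X - y_j` not nice (`nn_count`, step `-1680`: `9/50 L + L/10^6`). The sum is
`< .92 L`. For any other `j`, `Cex.tri` with `{X, y_j}` (both `≤ n`, `X + y_j ∈ (1.73 n, 1.85 n)`,
`X ≠ y_j` by coprimality) gives `X + y_j ∈ V`, so `M - X - y_j` is missing and nice, and lies in
`[.15 n, .27 n]`. -/
theorem ruleA2s {n M : ℕ} {V : Finset ℕ} (H : Hyp n M V) {c e : ℤ} (hc : Occ n V 84 c)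
    (he : Occ n V 84 e) (hce : CopC c e) : Occ n V 30 ((M : ℤ) - c - e) := by
  sorry

/-- Proof: `X` nice missing of the class of `c` in `[n/20, 3n/10]`; `gap` with `z = 1474 n / 1000`
gives a nice missing `Y ∈ (1.4714 n, 1.474 n]` of the class of `e`. Let `m = n / 67200` (a quarter
of `L`), `y_j = Y + 1680 j ≤ 1.4991 n`, `j ≤ m`. Small sets: `y_j ∈ V` (`climb` with `m`:
`9/25 m + L/180`); `gcd (X, y_j) > 1` (`9/50 m + L/10^6`); `y_j - X ∈ V` and `M - (y_j - X) ∈ V`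
(`vv_count` with `z = Y - X ∈ (1.17 n, 1.43 n)`: `9/50 m + L/270`); `M - (y_j - X)` not nice
(`9/50 m + L/10^6`). The sum is `9/10 m + .0093 L < m` (as `L ≤ 4 m + 4`). For any other `j`,
`Cex.tri` with `x = X`, `y = y_j - X > n` (`x + 2 y = 2 y_j - X ≤ 3 n`) gives `y_j - X ∈ V`, so
`M - (y_j - X)` is missing and nice; it lies in `[.55 n, .83 n]`. -/
theorem ruleA2d {n M : ℕ} {V : Finset ℕ} (H : Hyp n M V) {c e : ℤ} (hc : Occ n V 30 c)
    (he : Occ n V 84 e) (hce : CopC c e) : Occ n V 84 ((M : ℤ) + c - e) := by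
  sorry

end Pool.Agent.LR5
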