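import Mathlib
import Pool.Agent.LR5.RuleA1
import Pool.Agent.LR5.RuleA2
import Pool.Agent.LR5.Cls
import Pool.Agent.LR5.EW1
import Pool.Agent.LR5.EW2
import Pool.Agent.LR5.OW1
import Pool.Agent.LR5.OW2
import Pool.Agent.LR4.Supply9

/-!
# LR5 / Main : no counterexample with `n ≥ 10 ^ 40` (with `Supply9`)
-/

namespace Pool.Agent.LR5

open Finset Pool.Agent.LR2 Pool.Agent.LR4

/-- The context is contradictory. -/
theorem no_hyp {n M : ℕ} {V : Finset ℕ} (H : Hyp n M V) : False := by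
  have hM : ∀ p : ℕ, p.Prime → p ≤ 7 → ¬ p ∣ M := by
    intro p hp h7 hd
    have := H.rough p hp hd
    omega
  by_cases hF : ∀ c, ¬ Occ n V 84 c
  · exact ew2 H.cex H.big fun X h1 h2 h3 => ew1 H hF h1 h2 h3
  · push Not at hF
    obtain ⟨c0, h0⟩ := hF
    have key := cls (M : ℤ) (by exact_mod_cast H.odd)
      (fun h => hM 3 (by norm_num) (by norm_num) (by exact_mod_cast h))
      (fun h => hM 5 (by norm_num) (by norm_num) (by exact_mod_cast h))
      (fun h => hM 7 (by norm_num) (by norm_num) (by exact_mod_cast h))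
      (Occ n V 84) (Occ n V 30)
      (by
        rintro c d hcd ⟨X, h1, h2, h3, h4, h5⟩
        exact ⟨X, h1, h2, h3.trans hcd, h4, h5⟩)
      (by
        rintro c d hcd ⟨X, h1, h2, h3, h4, h5⟩
        exact ⟨X, h1, h2, h3.trans hcd, h4, h5⟩)
      (by
        rintro c ⟨X, h1, h2, h3, h4, h5⟩
        exact ⟨X, h1, h2, h3, h4, by omega⟩)
      (fun c hc => ruleA1 H hc) (fun c e hc he hce => ruleA2s H hc he hce)
      (fun c e hc he hce => ruleA2d H hc he hce) c0 h0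
    exact ow2 H.cex H.big fun e h1 h2 h3 h4 => ow1 H key h1 h2 h3 h4

/-- No counterexample if a suitable `M` exists. -/
theorem no_cex_of {n M : ℕ} {V : Finset ℕ} (h : Cex n V) (hn : 10 ^ 30 ≤ n)
    (h1 : 2 * (n + 1) < M) (h2 : 10 ^ 9 * (M - 2 * (n + 1)) ≤ 2 * (n + 1)) (h3 : Odd M)
    (h4 : ∀ p : ℕ, p.Prime → p ∣ M → 10 ^ 9 ≤ p)
    (h5 : 10 ^ 9 * ((range M).filter (fun x => ¬ Nat.Coprime x M)).card ≤ 4 * M) : False :=
  no_hyp (n := n) (M := M) (V := V) ⟨h, hn, by omega, by omega, h3, h4, h5⟩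

/-- The range `n ≥ 10 ^ 40`. -/
theorem R3 {n : ℕ} {V : Finset ℕ} (hn : 10 ^ 40 ≤ n) (h : Cex n V) : False := by
  obtain ⟨M, h1, h2, h3, h4, h5⟩ := supply9 (n + 1) (by omega)
  exact no_cex_of h (le_trans (by norm_num) hn) h1 h2 h3 h4 h5

end Pool.Agent.LR5
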