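import Pool.Agent.LR5.Fct2
import Pool.Agent.LR4.TabSnd
import Pool.Agent.LR4.TabYS

/-!
Lonely runner with speeds at most `2 n`: the table with the fast checker. The cells are sound for a
counterexample; the table statement from the checked entries.
-/

namespace Pool.Agent.LR5

open Pool.Agent.LR4 Pool.Agent.LR4.TC Finset

/-- Check of a cell. -/
def cdk2 (yy : ℕ) (c : Cd) : Bool :=
  force c.2.1 fun rho => force c.2.2.1 fun G => force c.2.2.2.1 fun w => force c.2.2.2.2 fun s =>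
    ro (an (Nat.beq c.1 30) (cell2 30 rho smn yy G w s))
      (ro (an (Nat.beq c.1 210) (cell2 210 rho smn7 yy G w s))
        (an (Nat.beq c.1 2310) (cell2 2310 rho smn11 yy G w s)))

/-- The checked cells are sound for the property `Q` of `g`. -/
def HC2 (M yy : ℕ) (Q : ℕ → Prop) : Prop :=
  ∀ c : Cd, cdk2 yy c = true → c.2.1 < c.1 → ∀ g, g ≡ c.2.1 * M [MOD c.1] →
    c.2.2.1 * M ≤ 800000 * g → 800000 * g ≤ (c.2.2.1 + c.2.2.2.1) * M → Q g

theorem cdk2_spec {yy : ℕ} {c : Cd} (h : cdk2 yy c = true) :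
    ∃ sm, Mds c.1 sm ∧ cell2 c.1 c.2.1 sm yy c.2.2.1 c.2.2.2.1 c.2.2.2.2 = true := by
  unfold cdk2 at h
  simp only [force_eq] at h
  rcases ro_or h with h1 | h1
  · obtain ⟨h2, h3⟩ := an_and h1
    have h4 : c.1 = 30 := Nat.eq_of_beq_eq_true h2
    exact ⟨smn, Or.inl ⟨h4, rfl⟩, by rw [h4]; exact h3⟩
  rcases ro_or h1 with h1 | h1
  · obtain ⟨h2, h3⟩ := an_and h1
    have h4 : c.1 = 210 := Nat.eq_of_beq_eq_true h2
    exact ⟨smn7, Or.inr (Or.inl ⟨h4, rfl⟩), by rw [h4]; exact h3⟩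
  · obtain ⟨h2, h3⟩ := an_and h1
    have h4 : c.1 = 2310 := Nat.eq_of_beq_eq_true h2
    exact ⟨smn11, Or.inr (Or.inr ⟨h4, rfl⟩), by rw [h4]; exact h3⟩

theorem hl2_of {M yy : ℕ} {Q : ℕ → Prop} {C : List Cd} (hC : HC2 M yy Q)
    (h : C.all (cdk2 yy) = true) : HL M (lfm C) Q := by
  intro md rho G w _ hr hcl g h1 h2 h3
  obtain ⟨c, hc, rfl, rfl, rfl, rfl⟩ := lfm_spec C hcl
  exact hC c (List.all_eq_true.1 h c hc) hr g h1 h2 h3

/-- The entry is checked, with the label mask `yy`. -/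
def EOK2 (yy : ℕ) (e : Entry) : Prop :=
  ∃ C : List Cd, C.all (cdk2 yy) = true ∧ ckL (lfm C) e = true

/-- The check of one cell list with the labels `ymk`. -/
def ckC2 : Cd → Bool := cdk2 ymk

theorem eok2_of {C : List Cd} {A : List Entry} (h1 : C.all ckC2 = true)
    (h2 : A.all (ckL (lfm C)) = true) : ∀ e ∈ A, EOK2 ymk e :=
  fun e he => ⟨C, h1, List.all_eq_true.1 h2 e he⟩

theorem eok2_app {yy : ℕ} {A B : List Entry} (h1 : ∀ e ∈ A, EOK2 yy e)
    (h2 : ∀ e ∈ B, EOK2 yy e) : ∀ e ∈ A ++ B, EOK2 yy e := by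
  intro e he
  rcases List.mem_append.1 he with h | h
  · exact h1 e h
  · exact h2 e h

/-- The checked cells are sound for the speeds. -/
def Snd2 (M : ℕ) (V : Finset ℕ) (yy : ℕ) : Prop :=
  ∀ g, 0 < g → g < M → Nat.Coprime g M → (8 * g) % M ∈ V →
    ∀ c : Cd, cdk2 yy c = true → c.2.1 < c.1 → g ≡ c.2.1 * M [MOD c.1] →
      c.2.2.1 * M ≤ 800000 * g → 800000 * g ≤ (c.2.2.1 + c.2.2.2.1) * M → Hits M V yy g

theorem tab2_of {M yy : ℕ} {V Y : Finset ℕ} {J : List (ℕ × ℕ)} {A : List Entry}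
    (hS : Snd2 M V yy) (hA : ∀ e ∈ A, EOK2 yy e) (hcov : ∀ d ∈ needs J, Cvd A d)
    (hY : ∀ b, tb yy b = true → b ∈ Y) (hJ : ∀ a ∈ J, 501 ≤ a.1 ∧ a.1 < a.2 ∧ a.2 ≤ 747)
    (hodd : Odd M) (hM1 : 1 < M) (hp : ∀ p, p.Prime → p ∣ M → 320 < p) : Tab M V Y J := by
  intro u hu huM huV hin h105
  obtain ⟨a, haJ, ha1, ha2⟩ := hin
  obtain ⟨hJ1, hJ2, hJ3⟩ := hJ a haJ
  have hM0 : 0 < M := by omega
  have huM2 : u < M := by
    by_contra h
    have h1 : 1000 * M ≤ 1000 * u := by omega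
    have h2 : a.2 * M ≤ 747 * M := Nat.mul_le_mul_right M hJ3
    omega
  have hcop : Nat.Coprime M 2310 := by
    by_contra h
    obtain ⟨p, hp1, hp2, hp3⟩ := Nat.Prime.not_coprime_iff_dvd.1 h
    have h1 := hp p hp1 hp2
    have h2 : p ∣ 2 * 3 * 5 * 7 * 11 := hp3
    rw [hp1.dvd_mul, hp1.dvd_mul, hp1.dvd_mul, hp1.dvd_mul] at h2
    rcases h2 with (((h2 | h2) | h2) | h2) | h2 <;>
      · have := Nat.le_of_dvd (by norm_num) h2
        omega
  -- the class `j`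
  obtain ⟨j, hj, g, hg⟩ : ∃ j, (j = 1 ∨ j = 3 ∨ j = 5 ∨ j = 7) ∧ ∃ g, 8 * g = u + j * M := by
    obtain ⟨r, hr⟩ := hodd
    obtain ⟨t, ht⟩ := hu
    have h1 : ∃ j, (j = 1 ∨ j = 3 ∨ j = 5 ∨ j = 7) ∧ (u + j * M) % 8 = 0 := by
      have h5 : (u + 1 * M) % 8 = 0 ∨ (u + 3 * M) % 8 = 0 ∨ (u + 5 * M) % 8 = 0 ∨
          (u + 7 * M) % 8 = 0 := by
        rcases (by omega : u % 8 = 1 ∨ u % 8 = 3 ∨ u % 8 = 5 ∨ u % 8 = 7) with h3 | h3 | h3 | h3 <;>
          rcases (by omega : M % 8 = 1 ∨ M % 8 = 3 ∨ M % 8 = 5 ∨ M % 8 = 7) with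
            h4 | h4 | h4 | h4 <;> omega
      rcases h5 with h | h | h | h
      · exact ⟨1, by simp, h⟩
      · exact ⟨3, by simp, h⟩
      · exact ⟨5, by simp, h⟩
      · exact ⟨7, by simp, h⟩
    obtain ⟨j, hj, h2⟩ := h1
    exact ⟨j, hj, (u + j * M) / 8, by omega⟩
  have hjle : j ≤ 7 := by omega
  have hjM : j * M ≤ 7 * M := Nat.mul_le_mul_right M hjle
  have hjM1 : 1 * M ≤ j * M := Nat.mul_le_mul_right M (by omega)
  have hg0 : 0 < g := by omega
  have hgM : g < M := by omega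
  have h8 : (8 * g) % M = u := by
    rw [hg, Nat.add_mul_mod_self_right, Nat.mod_eq_of_lt huM2]
  have hgc : Nat.Coprime g M := by
    have h1 : Nat.Coprime (8 * g) M := by
      have h2 : Nat.gcd (8 * g) M = Nat.gcd u M := by
        rw [← h8, ← Nat.gcd_rec, Nat.gcd_comm]
      rw [Nat.Coprime, h2]
      exact huM
    exact Nat.Coprime.coprime_mul_left h1
  -- the conclusion
  suffices hQ : Hits M V yy g by
    obtain ⟨b, hb, X, hX, hd⟩ := hQ
    refine ⟨b, hY b hb, X, hX, ?_⟩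
    have hgz : (8 : ℤ) * g = u + j * M := by exact_mod_cast hg
    rcases hd with ⟨c, hc⟩ | ⟨c, hc⟩
    · left
      have h1 : (8 * X : ℤ) ≡ b * u [ZMOD M] := by
        rw [Int.modEq_iff_dvd]
        refine ⟨-(8 * c) - b * j, ?_⟩
        have h2 : (X : ℤ) = b * g + M * c := by linarith
        rw [h2]
        linear_combination -(b : ℤ) * hgz
      exact_mod_cast h1
    · right
      have h1 : (M : ℤ) ∣ 8 * X + b * u := by
        refine ⟨8 * c - b * j, ?_⟩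
        have h2 : (X : ℤ) = M * c - b * g := by linarith
        rw [h2]
        linear_combination -(b : ℤ) * hgz
      exact Nat.mod_eq_zero_of_dvd (by exact_mod_cast h1)
  -- the residue modulo 30
  obtain ⟨rho, hrho, hgr⟩ := split_res (M := M) (md := 1) (p := 30) (rho := 0) (g := g)
    one_pos (Nat.Coprime.coprime_dvd_right (by norm_num) hcop) (by norm_num) one_pos
    (Nat.modEq_one)
  rw [one_mul, zero_add, one_mul] at hgr
  have hpos : (100000 * j + 100 * a.1) * M < 800000 * g := by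
    have h1 : (100000 * j + 100 * a.1) * M ≤ 800000 * g := by
      have h2 : (100000 * j + 100 * a.1) * M = 100000 * (j * M) + 100 * (a.1 * M) := by ring
      omega
    rcases Nat.lt_or_ge ((100000 * j + 100 * a.1) * M) (800000 * g) with h2 | h2
    · exact h2
    · exfalso
      have h3 : M ∣ 800000 * g := ⟨100000 * j + 100 * a.1, by rw [le_antisymm h2 h1]; ring⟩
      have h4 : M ∣ 800000 := Nat.Coprime.dvd_of_dvd_mul_right hgc.symm h3
      obtain ⟨p, hp1, hp2⟩ := Nat.exists_prime_and_dvd (n := M) (by omega)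
      have h5 := hp p hp1 hp2
      have h6 : p ∣ 2 ^ 8 * 5 ^ 5 := by
        have : p ∣ 800000 := hp2.trans h4
        norm_num
        exact this
      rcases hp1.dvd_mul.1 h6 with h7 | h7
      · have := Nat.le_of_dvd (by norm_num) (hp1.dvd_of_dvd_pow h7)
        omega
      · have := Nat.le_of_dvd (by norm_num) (hp1.dvd_of_dvd_pow h7)
        omega
  have hpos2 : 800000 * g ≤ (100000 * j + 100 * a.2) * M := by
    have h2 : (100000 * j + 100 * a.2) * M = 100000 * (j * M) + 100 * (a.2 * M) := by ring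
    omega
  obtain ⟨e, heA, he1, he2, he3, he4⟩ := hcov _ (needs_mem hj hrho haJ) M _ hpos hpos2
  obtain ⟨C, hC1, hck⟩ := hA e heA
  obtain ⟨j', rho', G, E, L⟩ := e
  dsimp only at he1 he2 he3 he4
  subst he1 he2
  have hck' : ck1 (lfm C) j' rho' L G E = true := hck
  -- the walk
  let Q : ℕ → Prop := fun g' => g' = g → Hits M V yy g
  have hC : HC2 M yy Q := by
    intro c hc hr g' h1 h2 h3 hgg
    subst hgg
    exact hS g' hg0 hgM hgc (by rw [h8]; exact huV) c hc hr h1 h2 h3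
  refine ck1_spec (Q := Q) (hl2_of hC hC1) hcop hrho ?_ L G E hck' g hgr he3 he4 rfl
  intro g' rho2 h1 h2 hgg
  subst hgg
  exfalso
  apply h105
  -- `u + M` is divisible by 105
  have h3 : (g' : ℤ) ≡ rho2 * M [ZMOD 210] := by exact_mod_cast h1
  obtain ⟨c, hc⟩ := Int.modEq_iff_dvd.1 h3
  have h4 : (105 : ℤ) ∣ 8 * rho2 - j' + 1 := by
    have h5 : (105 : ℤ) ∣ (((8 * rho2 + 106 - j' : ℕ)) : ℤ) := by
      exact_mod_cast Nat.dvd_of_mod_eq_zero h2
    rw [Nat.cast_sub (by omega)] at h5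
    push_cast at h5
    obtain ⟨c, hc⟩ := h5
    exact ⟨c - 1, by linarith⟩
  obtain ⟨d, hd⟩ := h4
  have hgz : (8 : ℤ) * g' = u + j' * M := by exact_mod_cast hg
  have h5 : (105 : ℤ) ∣ ((u + M : ℕ) : ℤ) := by
    push_cast
    refine ⟨d * M - 16 * c, ?_⟩
    linear_combination -hgz - 8 * hc + (M : ℤ) * hd
  exact_mod_cast h5

/-- **The cells are sound.** -/
theorem snd2_of {n K M yy : ℕ} {V : Finset ℕ} (h : Cex n V) (hM : M = 2 * n + K) (hodd : Odd M)
    (hK3 : 3 ≤ K) (hK : 700 * K ≤ M) (hp : ∀ p, p.Prime → p ∣ M → 320 < p)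
    (hyy : ∀ b, tb yy b = true → 1 ≤ b ∧ b ≤ 256) : Snd2 M V yy := by
  intro g hg0 hgM hgc hgV c hc' hrho' hrm' hl' hr'
  obtain ⟨sm, hm, hc⟩ := cdk2_spec hc'
  obtain ⟨md, rho, G, w, s⟩ := c
  dsimp only at hrho' hrm' hl' hr' hm hc
  have hrho : rho < md := hrho'
  have hrm : g ≡ rho * M [MOD md] := hrm'
  have hl : G * M ≤ 800000 * g := hl'
  have hr : 800000 * g ≤ (G + w) * M := hr'
  by_contra hcon
  obtain ⟨hmd0, hmd⟩ := mds_md hm
  have hmdM : Nat.Coprime md M := by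
    refine Nat.coprime_of_dvd ?_
    intro p hp1 hp2 hp3
    have h1 := hp p hp1 hp3
    have h2 : p ∣ 2 * 3 * 5 * 7 * 11 := hp2.trans hmd
    rw [hp1.dvd_mul, hp1.dvd_mul, hp1.dvd_mul, hp1.dvd_mul] at h2
    rcases h2 with (((h2 | h2) | h2) | h2) | h2 <;>
      · have := Nat.le_of_dvd (by norm_num) h2
        omega
  refine cell2_no (Y := (Finset.range 257).filter (fun b => tb yy b = true)) (u := (8 * g) % M)
    hc h hM hK3 hK hp hodd hgc (Nat.mod_mod _ _).symm (Nat.mod_lt _ (by omega)) hgV ?_ ?_ hmd0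
    (by omega) (mds_sm hm) hmdM hrm hl hr
  · rintro ⟨b, hb, X, hX, hbX⟩
    apply hcon
    have hb2 := (Finset.mem_filter.1 hb).2
    refine ⟨b, hb2, X, hX, ?_⟩
    have hco : IsCoprime (M : ℤ) (8 : ℤ) := by
      have h1 : Nat.Coprime M 8 := by
        have h2 : Nat.Coprime M (2 ^ 3) := Nat.Coprime.pow_right 3 (Nat.coprime_two_right.2 hodd)
        simpa using h2
      exact_mod_cast Nat.isCoprime_iff_coprime.2 h1
    have hu : (M : ℤ) ∣ 8 * (g : ℤ) - ((8 * g % M : ℕ) : ℤ) := by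
      have h1 := Nat.modEq_iff_dvd.1 (Nat.mod_modEq (8 * g) M)
      push_cast at h1 ⊢
      exact h1
    rcases hbX with h1 | h1
    · left
      have h2 := Nat.modEq_iff_dvd.1 (show (b * (8 * g % M) : ℕ) ≡ 8 * X [MOD M] from h1.symm)
      have h3 : (M : ℤ) ∣ 8 * ((X : ℤ) - b * g) := by
        have e : 8 * ((X : ℤ) - b * g) = (((8 * X : ℕ) : ℤ) - ((b * (8 * g % M) : ℕ) : ℤ)) -
            b * (8 * (g : ℤ) - ((8 * g % M : ℕ) : ℤ)) := by
          push_cast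
          ring
        rw [e]
        exact dvd_sub h2 (Dvd.dvd.mul_left hu _)
      exact hco.dvd_of_dvd_mul_left h3
    · right
      have h2 : (M : ℤ) ∣ ((8 * X + b * (8 * g % M) : ℕ) : ℤ) :=
        Int.natCast_dvd_natCast.2 (Nat.dvd_of_mod_eq_zero h1)
      have h3 : (M : ℤ) ∣ 8 * ((X : ℤ) + b * g) := by
        have e : 8 * ((X : ℤ) + b * g) = ((8 * X + b * (8 * g % M) : ℕ) : ℤ) +
            b * (8 * (g : ℤ) - ((8 * g % M : ℕ) : ℤ)) := by
          push_cast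
          ring
        rw [e]
        exact dvd_add h2 (Dvd.dvd.mul_left hu _)
      exact hco.dvd_of_dvd_mul_left h3
  · intro b hb
    have h1 := hyy b hb
    exact ⟨Finset.mem_filter.2 ⟨Finset.mem_range.2 (by omega), hb⟩, h1⟩

/-- The table statement for all parameters, from the checked entries. -/
theorem tabAll2_of {yy : ℕ} {Y : Finset ℕ} {J : List (ℕ × ℕ)} {A : List Entry}
    (hA : ∀ e ∈ A, EOK2 yy e) (hcov : ∀ d ∈ needs J, Cvd A d)
    (hY : ∀ b, tb yy b = true → b ∈ Y) (hyy : ∀ b, tb yy b = true → 1 ≤ b ∧ b ≤ 256)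
    (hJ : ∀ a ∈ J, 501 ≤ a.1 ∧ a.1 < a.2 ∧ a.2 ≤ 747) : TabAll Y J := by
  intro n K M V h hM hodd hK3 hK hp
  exact tab2_of (snd2_of h hM hodd hK3 hK hp hyy) hA hcov hY hJ hodd (by omega) hp

/-- The table statement, from the checked entries `A`. -/
theorem tabAll2_YS {A : List Entry} (hA : ∀ e ∈ A, EOK2 ymk e)
    (hcov : ∀ d ∈ needs J0, Cvd A d) : TabAll YS J0 :=
  tabAll2_of (yy := ymk) hA hcov ymk_mem ymk_bd (fun a ha => by
    have h1 : ∀ a ∈ J0, 501 ≤ a.1 ∧ a.1 < a.2 ∧ a.2 ≤ 747 := by decide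
    exact h1 a ha)

end Pool.Agent.LR5
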